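import Mathlib

/-!
# Arithmetic of the two recursions
-/

set_option autoImplicit false
set_option linter.unusedSectionVars false

open scoped BigOperators Classical
open Polynomial

noncomputable section

namespace Pool.Agent.H378.JW

/-- `P'` is given by the recursion for `G ≀ C_p` -/
def RecP (p : ℕ) (P P' : ℤ[X]) : Prop :=
  (p : ℤ[X]) * P' = P ^ p + ((p : ℤ[X]) ^ 2 * X - 1) * expand ℤ p P - (p : ℤ[X]) ^ 2 * X * P

/-- `P'` is given by the recursion for `G ≀ C_q`, `q ≠ p` -/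
def RecQ (q : ℕ) (P P' : ℤ[X]) : Prop :=
  (q : ℤ[X]) * P' = P ^ q + ((q ^ 2 - 1 : ℕ) : ℤ[X]) * expand ℤ q P

section low

variable {P : ℤ[X]} {m : ℕ}

/-- all coefficients below `m` vanish -/
def Lo (m : ℕ) (P : ℤ[X]) : Prop := ∀ i, i < m → P.coeff i = 0

lemma lo_iff : Lo m P ↔ X ^ m ∣ P := by
  rw [X_pow_dvd_iff]
  exact Iff.rfl

lemma lo_pow (h : Lo m P) (n : ℕ) : Lo (m * n) (P ^ n) := by
  rw [lo_iff] at h ⊢
  rw [pow_mul]
  exact pow_dvd_pow_of_dvd h n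

lemma coeff_pow_lo (h : Lo m P) (n : ℕ) : (P ^ n).coeff (m * n) = P.coeff m ^ n := by
  obtain ⟨Q, rfl⟩ := lo_iff.mp h
  rw [mul_pow, ← pow_mul]
  have h1 := coeff_X_pow_mul (Q ^ n) (m * n) 0
  have h2 := coeff_X_pow_mul Q m 0
  rw [zero_add] at h1 h2
  rw [h1, h2, coeff_zero_eq_eval_zero, coeff_zero_eq_eval_zero, eval_pow]

lemma lo_expand {n : ℕ} (hn : 0 < n) (h : Lo m P) : Lo (m * n) (expand ℤ n P) := by
  intro i hi
  rw [coeff_expand hn]
  split_ifs with h1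
  · apply h
    obtain ⟨k, rfl⟩ := h1
    rw [Nat.mul_div_cancel_left _ hn]
    rw [mul_comm m n] at hi
    exact Nat.lt_of_mul_lt_mul_left hi
  · rfl

lemma coeff_expand_lo {n : ℕ} (hn : 0 < n) : (expand ℤ n P).coeff (m * n) = P.coeff m :=
  coeff_expand_mul hn P m

/-- the lowest coefficient under the recursion for `q ≠ p` -/
lemma recQ_low {q : ℕ} (hq : q.Prime) {P' : ℤ[X]} (h : RecQ q P P') (hm : Lo m P) :
    Lo (m * q) P' ∧ (q : ℤ) * P'.coeff (m * q) = P.coeff m ^ q + (q ^ 2 - 1) * P.coeff m := by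
  have hq0 : (q : ℤ) ≠ 0 := by exact_mod_cast hq.ne_zero
  have hge : 1 ≤ q ^ 2 := Nat.one_le_pow _ _ hq.pos
  have hc : ∀ i, (q : ℤ) * P'.coeff i = (P ^ q).coeff i + (q ^ 2 - 1) * (expand ℤ q P).coeff i := by
    intro i
    have h1 := congrArg (fun Q : ℤ[X] => Q.coeff i) h
    simp only [coeff_add] at h1
    rw [← C_eq_natCast, ← C_eq_natCast, coeff_C_mul, coeff_C_mul] at h1
    rw [h1]
    push_cast [Nat.cast_sub hge]
    ring
  constructor
  · intro i hi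
    have h1 := hc i
    rw [lo_pow hm q i hi, lo_expand hq.pos hm i hi] at h1
    simp only [mul_zero, add_zero] at h1
    exact (mul_eq_zero.mp h1).resolve_left hq0
  · rw [hc, coeff_pow_lo hm, coeff_expand_lo hq.pos]

lemma recP_coeff {p : ℕ} {P' : ℤ[X]} (h : RecP p P P') (i : ℕ) :
    (p : ℤ) * P'.coeff i = (P ^ p).coeff i + p ^ 2 * (X * expand ℤ p P).coeff i -
      (expand ℤ p P).coeff i - p ^ 2 * (X * P).coeff i := by
  have h1 := congrArg (fun Q : ℤ[X] => Q.coeff i) h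
  have e1 : P ^ p + ((p : ℤ[X]) ^ 2 * X - 1) * expand ℤ p P - (p : ℤ[X]) ^ 2 * X * P =
      P ^ p + C ((p : ℤ) ^ 2) * (X * expand ℤ p P) - expand ℤ p P - C ((p : ℤ) ^ 2) * (X * P) := by
    rw [C_pow, C_eq_natCast]
    ring
  rw [e1] at h1
  simp only [coeff_add, coeff_sub, coeff_C_mul] at h1
  rw [← C_eq_natCast, coeff_C_mul] at h1
  exact h1

/-- the lowest coefficient under the recursion for `p` -/
lemma recP_low {p : ℕ} (hp : p.Prime) {P' : ℤ[X]} (h : RecP p P P') (hm : Lo m P)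
    (hpm : m + 1 < m * p) : Lo (m + 1) P' ∧ P'.coeff (m + 1) = -(p * P.coeff m) := by
  have hp0 : (p : ℤ) ≠ 0 := by exact_mod_cast hp.ne_zero
  have hX : ∀ Q : ℤ[X], ∀ j, Lo j Q → Lo (j + 1) (X * Q) := by
    intro Q j hQ i hi
    cases i with
    | zero => exact coeff_X_mul_zero _
    | succ i =>
      rw [coeff_X_mul]
      exact hQ i (by omega)
  have h1 := lo_pow hm p
  have h2 := lo_expand hp.pos hm
  constructor
  · intro i hi
    have h3 := recP_coeff h i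
    rw [h1 i (by omega), h2 i (by omega), hX _ _ h2 i (by omega), hX _ _ hm i hi] at h3
    simp only [mul_zero, add_zero, sub_zero] at h3
    exact (mul_eq_zero.mp h3).resolve_left hp0
  · have h3 := recP_coeff h (m + 1)
    rw [h1 _ hpm, h2 _ hpm, hX _ _ h2 _ (by omega), coeff_X_mul] at h3
    have h4 : (p : ℤ) * (P'.coeff (m + 1) + p * P.coeff m) = 0 := by linarith
    have h5 := (mul_eq_zero.mp h4).resolve_left hp0
    linarith

/-- the first step -/
lemma recP_first {p : ℕ} (hp : p.Prime) {P' : ℤ[X]} (h : RecP p P P') (h0 : P.coeff 0 = 0)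
    (hP : P ≠ 0) : Lo 2 P' ∧ P' ≠ 0 := by
  have hp0 : (p : ℤ) ≠ 0 := by exact_mod_cast hp.ne_zero
  have hp2 := hp.two_le
  have hlo1 : Lo 1 P := fun i hi => by
    obtain rfl : i = 0 := by omega
    exact h0
  have h1 := lo_pow hlo1 p
  have h2 := lo_expand hp.pos hlo1
  rw [one_mul] at h1 h2
  constructor
  · intro i hi
    have h3 := recP_coeff h i
    rw [h1 i (by omega), h2 i (by omega)] at h3
    have h4 : (X * expand ℤ p P).coeff i = 0 := by
      cases i with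
      | zero => exact coeff_X_mul_zero _
      | succ i =>
        rw [coeff_X_mul]
        exact h2 i (by omega)
    have h5 : (X * P).coeff i = 0 := by
      cases i with
      | zero => exact coeff_X_mul_zero _
      | succ i =>
        rw [coeff_X_mul]
        exact hlo1 i (by omega)
    rw [h4, h5] at h3
    simp only [mul_zero, add_zero, sub_zero] at h3
    exact (mul_eq_zero.mp h3).resolve_left hp0
  · rintro rfl
    -- the lowest coefficient of `P`
    set m := P.natTrailingDegree with hmdef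
    have hm : Lo m P := fun i hi => coeff_eq_zero_of_lt_natTrailingDegree hi
    have hc : P.coeff m ≠ 0 := by
      have := trailingCoeff_nonzero_iff_nonzero.mpr hP
      exact this
    have hm0 : m ≠ 0 := by
      intro h3
      rw [h3] at hc
      exact hc h0
    by_cases hpm : m + 1 < m * p
    · obtain ⟨-, h4⟩ := recP_low hp h hm hpm
      rw [coeff_zero] at h4
      have h5 : (p : ℤ) * P.coeff m = 0 := by linarith
      rcases mul_eq_zero.mp h5 with h6 | h6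
      · exact hp0 h6
      · exact hc h6
    · have hm1 : m = 1 := by
        by_contra hne
        have h3 : 2 ≤ m := by omega
        apply hpm
        nlinarith
      have hp' : p = 2 := by
        rw [hm1, one_mul] at hpm
        omega
      subst hp'
      rw [hm1] at hc
      have e2 := recP_coeff h 2
      have e3 := recP_coeff h 3
      have s2 : (P ^ 2).coeff 2 = P.coeff 1 ^ 2 := by
        rw [sq, coeff_mul]
        simp [Finset.Nat.antidiagonal_succ, h0]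
        ring
      have s3 : (P ^ 2).coeff 3 = 2 * (P.coeff 1 * P.coeff 2) := by
        rw [sq, coeff_mul]
        simp [Finset.Nat.antidiagonal_succ, h0]
        ring
      have t1 : (expand ℤ 2 P).coeff 1 = 0 := h2 1 (by norm_num)
      have t2 : (expand ℤ 2 P).coeff 2 = P.coeff 1 := coeff_expand_lo (m := 1) (by norm_num)
      have t3 : (expand ℤ 2 P).coeff 3 = 0 := by
        rw [coeff_expand (by norm_num), if_neg (by norm_num)]
      rw [s2, coeff_X_mul, coeff_X_mul, t1, t2, coeff_zero] at e2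
      rw [s3, coeff_X_mul, coeff_X_mul, t2, t3, coeff_zero] at e3
      push_cast at e2 e3
      have h3 : P.coeff 1 * (P.coeff 1 - 5) = 0 := by linarith
      have h4 : P.coeff 1 = 5 := by
        rcases mul_eq_zero.mp h3 with h5 | h5
        · exact absurd h5 hc
        · linarith
      rw [h4] at e3
      omega

end low

/-- A family of integral polynomials with weights `n`, closed under the recursion of the wreath
products with a group of order `p`. -/
structure FamP (p : ℕ) (S : ℤ[X] → ℕ → Prop) : Prop where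
  wr : ∀ P n, S P n → ∃ P', RecP p P P' ∧ S P' (p * n + 1)
  zero : ∀ P n, S P n → P.coeff 0 = 0

variable {p : ℕ} {S : ℤ[X] → ℕ → Prop}

/-- the defects of the iterated wreath products -/
def nn (p n : ℕ) : ℕ → ℕ
  | 0 => n
  | k + 1 => p * nn p n k + 1

lemma nn_le (hp : p.Prime) (n k : ℕ) : nn p n k + 1 ≤ p ^ k * (n + 1) := by
  have hp2 := hp.two_le
  induction k with
  | zero => simp [nn]
  | succ k ih =>
    unfold nn
    rw [pow_succ]
    nlinarith

lemma le_nn (n k : ℕ) : p ^ k * n ≤ nn p n k := by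
  induction k with
  | zero => simp [nn]
  | succ k ih =>
    unfold nn
    rw [pow_succ]
    nlinarith

/-- iteration -/
theorem FamP.iter (hp : p.Prime) (h : FamP p S) {P : ℤ[X]} {n m : ℕ} (hP : S P n) (hm2 : 2 ≤ m)
    (hm : Lo m P) (k : ℕ) : ∃ P', S P' (nn p n k) ∧ Lo (m + k) P' ∧
      P'.coeff (m + k) = (-(p : ℤ)) ^ k * P.coeff m := by
  have hp2 := hp.two_le
  induction k with
  | zero =>
    refine ⟨P, hP, hm, ?_⟩
    rw [pow_zero, one_mul, add_zero]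
  | succ k ih =>
    obtain ⟨P₁, h1, h2, h3⟩ := ih
    obtain ⟨P₂, h7, h8⟩ := h.wr _ _ h1
    have hlt : m + k + 1 < (m + k) * p := by nlinarith
    obtain ⟨h9, h10⟩ := recP_low hp h7 h2 hlt
    refine ⟨P₂, h8, h9, ?_⟩
    rw [← add_assoc, h10, h3, pow_succ]
    ring

/-- a member with a lowest coefficient of degree at least two -/
theorem FamP.start (hp : p.Prime) (h : FamP p S) {P : ℤ[X]} {n : ℕ} (hP : S P n) (hne : P ≠ 0) :
    ∃ P' n' m, S P' n' ∧ 1 ≤ n' ∧ 2 ≤ m ∧ Lo m P' ∧ P'.coeff m ≠ 0 := by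
  obtain ⟨P', h1, h2⟩ := h.wr _ _ hP
  obtain ⟨h3, h4⟩ := recP_first hp h1 (h.zero _ _ hP) hne
  refine ⟨P', p * n + 1, P'.natTrailingDegree, h2, by omega, ?_,
    fun i hi => coeff_eq_zero_of_lt_natTrailingDegree hi, ?_⟩
  · by_contra hlt
    have h5 : P'.coeff P'.natTrailingDegree ≠ 0 := trailingCoeff_nonzero_iff_nonzero.mpr h4
    exact h5 (h3 _ (by omega))
  · exact trailingCoeff_nonzero_iff_nonzero.mpr h4

/-- removal of a prime divisor -/
theorem remove_prime {q : ℕ} (hq : q.Prime)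
    (hS : ∀ P n, S P n → ∃ P' n', n ≤ n' ∧ RecQ q P P' ∧ S P' n') {v : ℕ} :
    ∀ {P : ℤ[X]} {n m : ℕ}, S P n → 2 ≤ m → Lo m P → P.coeff m ≠ 0 →
      ¬ ((q : ℤ) ^ (v + 1) ∣ P.coeff m) →
    ∃ P' n' m', S P' n' ∧ n ≤ n' ∧ 2 ≤ m' ∧ Lo m' P' ∧ ¬ (q : ℤ) ∣ P'.coeff m' := by
  have hq0 : (q : ℤ) ≠ 0 := by exact_mod_cast hq.ne_zero
  have hqp : Prime (q : ℤ) := Nat.prime_iff_prime_int.mp hq
  induction v with
  | zero =>
    intro P n m h1 h2 h3 _ h5
    rw [zero_add, pow_one] at h5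
    exact ⟨P, n, m, h1, le_rfl, h2, h3, h5⟩
  | succ v ih =>
    intro P n m h1 h2 h3 h4 h5
    by_cases hd : (q : ℤ) ∣ P.coeff m
    · obtain ⟨P', n', hn, h6, h7⟩ := hS P n h1
      obtain ⟨h8, h9⟩ := recQ_low hq h6 h3
      obtain ⟨c, hc⟩ := hd
      have hc0 : c ≠ 0 := fun h => h4 (by rw [hc, h, mul_zero])
      have hq1 : q = q - 1 + 1 := (Nat.sub_add_cancel hq.pos).symm
      have hq2 : q - 1 = q - 2 + 1 := by have := hq.two_le; omega
      -- the new coefficient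
      have h10 : P'.coeff (m * q) = (q : ℤ) ^ (q - 1) * c ^ q + (q ^ 2 - 1) * c := by
        have e1 : (q : ℤ) * P'.coeff (m * q) =
            (q : ℤ) * ((q : ℤ) ^ (q - 1) * c ^ q + (q ^ 2 - 1) * c) := by
          rw [h9, hc, mul_pow]
          have e2 : (q : ℤ) ^ q = q * (q : ℤ) ^ (q - 1) := by
            rw [← pow_succ', Nat.sub_add_cancel hq.pos]
          rw [e2]
          ring
        exact mul_left_cancel₀ hq0 e1
      have h11 : P'.coeff (m * q) = c * ((q : ℤ) * ((q : ℤ) ^ (q - 2) * c ^ (q - 1) + q) - 1) := by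
        rw [h10]
        have e2 : (q : ℤ) ^ (q - 1) = q * (q : ℤ) ^ (q - 2) := by
          rw [← pow_succ', hq2.symm]
        have e3 : c ^ q = c * c ^ (q - 1) := by rw [← pow_succ', Nat.sub_add_cancel hq.pos]
        rw [e2, e3]
        ring
      have hunit : ∀ j, (q : ℤ) ^ j ∣ P'.coeff (m * q) → (q : ℤ) ^ j ∣ c := by
        intro j hj
        rw [h11] at hj
        refine IsCoprime.dvd_of_dvd_mul_right (IsCoprime.pow_left ?_) hj
        exact ⟨(q : ℤ) ^ (q - 2) * c ^ (q - 1) + q, -1, by ring⟩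
      have h12 : ¬ (q : ℤ) ^ (v + 1) ∣ P'.coeff (m * q) := by
        intro hj
        apply h5
        rw [hc, pow_succ']
        exact mul_dvd_mul_left _ (hunit _ hj)
      have h13 : P'.coeff (m * q) ≠ 0 := fun h => h12 (h ▸ dvd_zero _)
      obtain ⟨P₂, n₂, m₂, a1, a2, a3, a4, a5⟩ := ih h7 (by nlinarith [hq.pos]) h8 h13 h12
      exact ⟨P₂, n₂, m₂, a1, hn.trans a2, a3, a4, a5⟩
    · exact ⟨P, n, m, h1, le_rfl, h2, h3, hd⟩

/-- removal of a prime divisor, starting with a member which is not zero -/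
theorem FamP.startQ (hp : p.Prime) (h : FamP p S) {q : ℕ} (hq : q.Prime)
    (hS : ∀ P n, S P n → ∃ P' n', n ≤ n' ∧ RecQ q P P' ∧ S P' n') {P : ℤ[X]} {n : ℕ}
    (hP : S P n) (hne : P ≠ 0) :
    ∃ P' n' m, S P' n' ∧ 1 ≤ n' ∧ 2 ≤ m ∧ Lo m P' ∧ ¬ (q : ℤ) ∣ P'.coeff m := by
  obtain ⟨P₁, n₁, m₁, h1, h2, h3, h4, h5⟩ := h.start hp hP hne
  have h6 := (Int.finiteMultiplicity_iff (a := (q : ℤ)) (b := P₁.coeff m₁)).2
    ⟨by rw [Int.natAbs_natCast]; exact hq.one_lt.ne', h5⟩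
  obtain ⟨v, hv⟩ := h6
  obtain ⟨P₂, n₂, m₂, a1, a2, a3, a4, a5⟩ := remove_prime hq hS h1 h3 h4 h5 hv
  exact ⟨P₂, n₂, m₂, a1, h2.trans a2, a3, a4, a5⟩

lemma not_dvd_neg_pow (hp : p.Prime) {q : ℕ} (hq : q.Prime) (hqp : q ≠ p) (k : ℕ) :
    ¬ (q : ℤ) ∣ (-(p : ℤ)) ^ k := by
  have hqP : Prime (q : ℤ) := Nat.prime_iff_prime_int.mp hq
  intro h8
  have h9 := hqP.dvd_of_dvd_pow h8
  rw [dvd_neg] at h9
  have h10 : q ∣ p := by exact_mod_cast h9
  exact hqp ((Nat.prime_dvd_prime_iff_eq hq hp).mp h10)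

/-! ### the defects near the logarithm -/

/-- the defects near `log_p n` -/
def Near (p : ℕ) (ω : ℕ → ℝ) (n d : ℕ) : Prop := |(d : ℝ) - Real.logb p n| ≤ ω n

lemma logb_nn (hp : p.Prime) {n : ℕ} (hn : 1 ≤ n) (k : ℕ) :
    (k : ℝ) ≤ Real.logb p (nn p n k) ∧
      Real.logb p (nn p n k) ≤ k + Real.logb p ((n : ℝ) + 1) := by
  have hp1 : (1 : ℝ) < p := by exact_mod_cast hp.one_lt
  have h1 := le_nn (p := p) n k
  have h2 := nn_le hp n k
  have h0 : p ^ k ≤ nn p n k := le_trans (by nlinarith [pow_pos hp.pos k]) h1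
  have hpos : (0 : ℝ) < nn p n k := by exact_mod_cast lt_of_lt_of_le (pow_pos hp.pos k) h0
  constructor
  · rw [Real.le_logb_iff_rpow_le hp1 hpos, Real.rpow_natCast]
    exact_mod_cast h0
  · have h5 : ((nn p n k : ℕ) : ℝ) ≤ (p : ℝ) ^ k * ((n : ℝ) + 1) := by
      have : ((nn p n k : ℕ) : ℝ) + 1 ≤ (p : ℝ) ^ k * ((n : ℝ) + 1) := by exact_mod_cast h2
      linarith
    have h6 := Real.logb_le_logb_of_le hp1 hpos h5
    rw [Real.logb_mul (by positivity) (by positivity), Real.logb_pow, Real.logb_self_eq_one hp1,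
      mul_one] at h6
    exact h6

lemma nn_ge (hp : p.Prime) {n : ℕ} (hn : 1 ≤ n) (k : ℕ) : k ≤ nn p n k := by
  have h1 := le_nn (p := p) n k
  have h2 := (Nat.lt_pow_self hp.one_lt (n := k)).le
  nlinarith [pow_pos hp.pos k]

lemma near_of (hp : p.Prime) {ω : ℕ → ℝ} (hω : Filter.Tendsto ω Filter.atTop Filter.atTop)
    (m : ℕ) {n : ℕ} (hn : 1 ≤ n) : ∃ K : ℕ, ∀ k, K ≤ k → Near p ω (nn p n k) (m + k) := by
  have hp1 : (1 : ℝ) < p := by exact_mod_cast hp.one_lt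
  have hl : 0 ≤ Real.logb p ((n : ℝ) + 1) :=
    Real.logb_nonneg hp1 (by have : (0 : ℝ) ≤ n := Nat.cast_nonneg _; linarith)
  obtain ⟨N, hN⟩ := Filter.eventually_atTop.mp (hω.eventually
    (Filter.eventually_ge_atTop ((m : ℝ) + Real.logb p ((n : ℝ) + 1))))
  refine ⟨N, fun k hk => ?_⟩
  have h2 := hN _ (hk.trans (nn_ge hp hn k))
  obtain ⟨h3, h4⟩ := logb_nn hp hn k
  unfold Near
  rw [abs_le]
  push_cast
  constructor <;> linarith [(Nat.cast_nonneg m : (0 : ℝ) ≤ m)]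

/-- **one-sided bounds** -/
theorem FamP.bound (hp : p.Prime) (h : FamP p S) {ω : ℕ → ℝ}
    (hω : Filter.Tendsto ω Filter.atTop Filter.atTop) {s : ℤ} (hs : s = 1 ∨ s = -1)
    (hc : ∀ ε : ℝ, 0 < ε → ∃ c : ℝ, ∀ P n, S P n → ∀ d, Near p ω n d →
      ((s * P.coeff d : ℤ) : ℝ) ≤ ε * (p : ℝ) ^ d + c) {P : ℤ[X]} {n : ℕ} (hP : S P n) :
    P = 0 := by
  by_contra hne
  obtain ⟨P₁, n₁, m₁, h1, h2, h3, h4, h5⟩ := h.start hp hP hne
  obtain ⟨K, hK⟩ := near_of hp hω m₁ h2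
  have hp1 : (1 : ℝ) < p := by exact_mod_cast hp.one_lt
  have hpm : (0 : ℝ) < (p : ℝ) ^ m₁ := by positivity
  obtain ⟨c, hc'⟩ := hc (1 / (2 * (p : ℝ) ^ m₁)) (by positivity)
  -- a large exponent with the right sign
  obtain ⟨k₀, hk₀⟩ := pow_unbounded_of_one_lt (2 * c) hp1
  have hsign : ∃ k, K ≤ k ∧ k₀ ≤ k ∧ 0 < s * ((-1) ^ k * P₁.coeff m₁) := by
    have hs0 : s ≠ 0 := by rcases hs with rfl | rfl <;> norm_num
    have hne' : s * P₁.coeff m₁ ≠ 0 := mul_ne_zero hs0 h5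
    rcases lt_or_gt_of_ne hne' with h6 | h6
    · refine ⟨2 * (K + k₀) + 1, by omega, by omega, ?_⟩
      rw [pow_succ, pow_mul]
      norm_num
      linarith
    · refine ⟨2 * (K + k₀), by omega, by omega, ?_⟩
      rw [pow_mul]
      norm_num
      linarith
  obtain ⟨k, hk1, hk2, hk3⟩ := hsign
  obtain ⟨P₃, b1, b2, b3⟩ := h.iter hp h1 h3 h4 k
  have h7 := hc' _ _ b1 _ (hK k hk1)
  rw [b3] at h7
  have h8 : (p : ℤ) ^ k ≤ s * ((-(p : ℤ)) ^ k * P₁.coeff m₁) := by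
    have e1 : s * ((-(p : ℤ)) ^ k * P₁.coeff m₁) =
        (p : ℤ) ^ k * (s * ((-1) ^ k * P₁.coeff m₁)) := by
      rw [neg_pow]
      ring
    rw [e1]
    have : (0 : ℤ) < (p : ℤ) ^ k := pow_pos (by exact_mod_cast hp.pos) k
    nlinarith
  have h9 : ((p : ℝ)) ^ k ≤ ((s * ((-(p : ℤ)) ^ k * P₁.coeff m₁) : ℤ) : ℝ) := by
    exact_mod_cast h8
  have h11 : (p : ℝ) ^ k₀ ≤ (p : ℝ) ^ k := pow_le_pow_right₀ hp1.le hk2
  have h12 : 1 / (2 * (p : ℝ) ^ m₁) * (p : ℝ) ^ (m₁ + k) = (p : ℝ) ^ k / 2 := by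
    rw [pow_add]
    field_simp
  have h13 := h9.trans h7
  rw [h12] at h13
  linarith

/-! ### one defect -/

/-- The conditions for the function which selects the defects. -/
structure Sel (p : ℕ) (φ : ℕ → ℕ) : Prop where
  lim : Filter.Tendsto (fun n => (φ n : ℝ) - Real.logb p n) Filter.atTop Filter.atTop
  step : ∀ᶠ n in Filter.atTop, φ (p * n + 1) ≤ φ n + 2
  upper : ∀ᶠ n in Filter.atTop, (φ n : ℝ) ≤ 3 * Real.logb p n

/-- the discrete intermediate value theorem -/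
lemma hit {a : ℕ → ℤ} (h0 : 0 < a 0) (hs : ∀ j, a j - 1 ≤ a (j + 1)) (hneg : ∃ j, a j ≤ 0) :
    ∃ j, a j = 0 := by
  set j := Nat.find hneg with hj
  have h1 : a j ≤ 0 := Nat.find_spec hneg
  have hj0 : j ≠ 0 := by
    intro h
    rw [h] at h1
    omega
  obtain ⟨i, hi⟩ := Nat.exists_eq_succ_of_ne_zero hj0
  have h2 : ¬ a i ≤ 0 := Nat.find_min hneg (by rw [← hj, hi]; exact Nat.lt_succ_self i)
  refine ⟨j, le_antisymm h1 ?_⟩
  have h3 := hs i
  rw [hi]
  have : a (Nat.succ i) = a (i + 1) := rfl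
  omega

/-- the selected defects are attained -/
lemma Sel.hit (hp : p.Prime) {φ : ℕ → ℕ} (hφ : Sel p φ) (m : ℕ) {n : ℕ} (hn : 1 ≤ n) :
    ∃ K : ℕ, ∀ k, K ≤ k → ∃ j, 4 * (m + k) + j = φ (nn p (4 * nn p n k) j) := by
  have hp1 : (1 : ℝ) < p := by exact_mod_cast hp.one_lt
  obtain ⟨N₁, hN₁⟩ := Filter.eventually_atTop.mp hφ.step
  obtain ⟨N₂, hN₂⟩ := Filter.eventually_atTop.mp hφ.upper
  obtain ⟨N₃, hN₃⟩ := exists_nat_gt (3 * (Real.logb p 4 + Real.logb p ((n : ℝ) + 1)))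
  refine ⟨N₁ + N₂ + N₃, fun k hk => ?_⟩
  have hnk : k ≤ nn p n k := nn_ge hp hn k
  have hnk1 : 1 ≤ nn p n k := by
    have h1 := le_nn (p := p) n k
    have h2 := pow_pos hp.pos k
    nlinarith
  set n₀ := 4 * nn p n k with hn₀
  have hn₀1 : 1 ≤ n₀ := by omega
  have hmono : ∀ j, n₀ ≤ nn p n₀ j := by
    intro j
    have h1 := le_nn (p := p) n₀ j
    have h2 := pow_pos hp.pos j
    nlinarith
  have h0 : ∃ j, (((4 * (m + k) + j : ℕ) : ℤ) - (φ (nn p n₀ j) : ℤ)) = 0 := by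
    refine JW.hit (a := fun j => ((4 * (m + k) + j : ℕ) : ℤ) - (φ (nn p n₀ j) : ℤ)) ?_ ?_ ?_
    · have h1 := hN₂ n₀ (by omega)
      have h2 := (logb_nn hp hn k).2
      have h3 : Real.logb p ((n₀ : ℕ) : ℝ) = Real.logb p 4 + Real.logb p ((nn p n k : ℕ) : ℝ) := by
        rw [hn₀]
        push_cast
        rw [Real.logb_mul (by norm_num) (by
          have : (1 : ℝ) ≤ ((nn p n k : ℕ) : ℝ) := by exact_mod_cast hnk1
          linarith)]
      have h4 : ((N₃ : ℕ) : ℝ) ≤ k := by exact_mod_cast (by omega : N₃ ≤ k)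
      have h5 : (φ n₀ : ℝ) < ((4 * (m + k) : ℕ) : ℝ) := by
        push_cast
        have : (0 : ℝ) ≤ m := Nat.cast_nonneg m
        linarith
      have h6 : φ n₀ < 4 * (m + k) := by exact_mod_cast h5
      simp only [add_zero, nn]
      omega
    · intro j
      have h1 := hN₁ (nn p n₀ j) (by have := hmono j; omega)
      have h2 : nn p n₀ (j + 1) = p * nn p n₀ j + 1 := rfl
      change ((4 * (m + k) + j : ℕ) : ℤ) - (φ (nn p n₀ j) : ℤ) - 1 ≤
        ((4 * (m + k) + (j + 1) : ℕ) : ℤ) - (φ (nn p n₀ (j + 1)) : ℤ)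
      rw [h2]
      push_cast
      omega
    · obtain ⟨N₄, hN₄⟩ := Filter.eventually_atTop.mp (hφ.lim.eventually
        (Filter.eventually_ge_atTop ((4 * (m + k) : ℕ) : ℝ)))
      refine ⟨N₄, ?_⟩
      have h1 := hN₄ _ (nn_ge hp hn₀1 N₄)
      have h2 := (logb_nn hp hn₀1 N₄).1
      have h3 : ((4 * (m + k) + N₄ : ℕ) : ℝ) ≤ (φ (nn p n₀ N₄) : ℝ) := by
        push_cast at h1 ⊢
        linarith
      have h4 : 4 * (m + k) + N₄ ≤ φ (nn p n₀ N₄) := by exact_mod_cast h3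
      change ((4 * (m + k) + N₄ : ℕ) : ℤ) - (φ (nn p n₀ N₄) : ℤ) ≤ 0
      omega
  obtain ⟨j, hj⟩ := h0
  exact ⟨j, by omega⟩

/-- the lowest terms of the iterated wreath products of the fourth power of an iterated wreath
product -/
theorem FamP.two (hp : p.Prime) (h : FamP p S) (hsq : ∀ P n, S P n → S (P ^ 2) (2 * n))
    {P : ℤ[X]} {n m : ℕ} (hP : S P n) (hm2 : 2 ≤ m) (hm : Lo m P) (k j : ℕ) :
    ∃ P', S P' (nn p (4 * nn p n k) j) ∧
      P'.coeff (4 * (m + k) + j) = (-(p : ℤ)) ^ j * ((-(p : ℤ)) ^ k * P.coeff m) ^ 4 := by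
  obtain ⟨P₁, h1, h2, h3⟩ := h.iter hp hP hm2 hm k
  have h4 : S (P₁ ^ 4) (4 * nn p n k) := by
    have h5 := hsq _ _ (hsq _ _ h1)
    have e1 : (P₁ ^ 2) ^ 2 = P₁ ^ 4 := by ring
    have e2 : 2 * (2 * nn p n k) = 4 * nn p n k := by ring
    rwa [e1, e2] at h5
  have h5 : Lo (4 * (m + k)) (P₁ ^ 4) := by
    rw [mul_comm]
    exact lo_pow h2 4
  have h6 : (P₁ ^ 4).coeff (4 * (m + k)) = P₁.coeff (m + k) ^ 4 := by
    rw [mul_comm]
    exact coeff_pow_lo h2 4
  obtain ⟨P₂, a1, -, a3⟩ := h.iter hp h4 (by omega) h5 j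
  exact ⟨P₂, a1, by rw [a3, h6, h3]⟩

/-- **congruences for one defect** -/
theorem FamP.congr_one (hp : p.Prime) (h : FamP p S) (hsq : ∀ P n, S P n → S (P ^ 2) (2 * n))
    {q : ℕ} (hq : q.Prime) (hqp : q ≠ p)
    (hS : ∀ P n, S P n → ∃ P' n', n ≤ n' ∧ RecQ q P P' ∧ S P' n') {φ : ℕ → ℕ} (hφ : Sel p φ)
    (hc : ∀ P n, S P n → (q : ℤ) ∣ P.coeff (φ n)) {P : ℤ[X]} {n : ℕ} (hP : S P n) : P = 0 := by
  by_contra hne
  obtain ⟨P₂, n₂, m₂, a1, a2, a3, a4, a5⟩ := h.startQ hp hq hS hP hne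
  obtain ⟨K, hK⟩ := hφ.hit hp m₂ a2
  obtain ⟨j, hj⟩ := hK K le_rfl
  obtain ⟨P₃, b1, b2⟩ := h.two hp hsq a1 a3 a4 K j
  have h7 := hc _ _ b1
  rw [← hj, b2] at h7
  have hqP : Prime (q : ℤ) := Nat.prime_iff_prime_int.mp hq
  rcases hqP.dvd_or_dvd h7 with h8 | h8
  · exact not_dvd_neg_pow hp hq hqp j h8
  · rcases hqP.dvd_or_dvd (hqP.dvd_of_dvd_pow h8) with h9 | h9
    · exact not_dvd_neg_pow hp hq hqp K h9
    · exact a5 h9

/-- **bounds for one defect** -/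
theorem FamP.bound_one (hp : p.Prime) (h : FamP p S) (hsq : ∀ P n, S P n → S (P ^ 2) (2 * n))
    {φ : ℕ → ℕ} (hφ : Sel p φ)
    (hc : ∀ ε : ℝ, 0 < ε → ∃ c : ℝ, ∀ P n, S P n →
      |(P.coeff (φ n) : ℝ)| ≤ ε * (p : ℝ) ^ (φ n) + c) {P : ℤ[X]} {n : ℕ} (hP : S P n) :
    P = 0 := by
  by_contra hne
  obtain ⟨P₁, n₁, m₁, h1, h2, h3, h4, h5⟩ := h.start hp hP hne
  obtain ⟨K, hK⟩ := hφ.hit hp m₁ h2
  have hp1 : (1 : ℝ) < p := by exact_mod_cast hp.one_lt
  obtain ⟨c, hc'⟩ := hc (1 / (2 * (p : ℝ) ^ (4 * m₁))) (by positivity)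
  obtain ⟨k₀, hk₀⟩ := pow_unbounded_of_one_lt (2 * c) hp1
  obtain ⟨j, hj⟩ := hK (K + k₀) (Nat.le_add_right _ _)
  obtain ⟨P₃, b1, b2⟩ := h.two hp hsq h1 h3 h4 (K + k₀) j
  have h7 := hc' _ _ b1
  rw [← hj, b2] at h7
  push_cast at h7
  rw [abs_mul, abs_pow, abs_pow, abs_mul, abs_pow, abs_neg, abs_of_pos (by positivity : (0 : ℝ) < p)]
    at h7
  have h8 : (1 : ℝ) ≤ |((P₁.coeff m₁ : ℤ) : ℝ)| := by
    rw [← Int.cast_abs]
    exact_mod_cast Int.one_le_abs h5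
  set x : ℝ := (p : ℝ) ^ j * ((p : ℝ) ^ (K + k₀)) ^ 4 with hx
  have hx0 : 0 < x := by positivity
  have h9 : x ≤ (p : ℝ) ^ j * ((p : ℝ) ^ (K + k₀) * |((P₁.coeff m₁ : ℤ) : ℝ)|) ^ 4 := by
    rw [hx, mul_pow]
    have h10 : (1 : ℝ) ≤ |((P₁.coeff m₁ : ℤ) : ℝ)| ^ 4 := one_le_pow₀ h8
    nlinarith
  have h10 : 1 / (2 * (p : ℝ) ^ (4 * m₁)) * (p : ℝ) ^ (4 * (m₁ + (K + k₀)) + j) = x / 2 := by
    rw [hx, mul_add, pow_add, pow_add]
    have e1 : ((p : ℝ) ^ (K + k₀)) ^ 4 = (p : ℝ) ^ (4 * (K + k₀)) := by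
      rw [← pow_mul, mul_comm]
    rw [e1]
    field_simp
  rw [h10] at h7
  have h11 : (p : ℝ) ^ k₀ ≤ x := by
    rw [hx, ← pow_mul, ← pow_add]
    exact pow_le_pow_right₀ hp1.le (by nlinarith)
  linarith

/-- **examples of the function** -/
theorem sel_floor (hp : p.Prime) {β : ℝ} (h1 : 1 < β) (h2 : β < 2) :
    Sel p (fun n => ⌊β * Real.logb p n⌋₊) := by
  have hp1 : (1 : ℝ) < p := by exact_mod_cast hp.one_lt
  have hlog : Filter.Tendsto (fun n : ℕ => Real.logb p (n : ℝ)) Filter.atTop Filter.atTop :=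
    (Real.tendsto_logb_atTop hp1).comp tendsto_natCast_atTop_atTop
  refine ⟨?_, ?_, ?_⟩
  · have h3 : Filter.Tendsto (fun n : ℕ => (β - 1) * Real.logb p (n : ℝ) - 1) Filter.atTop
        Filter.atTop :=
      Filter.tendsto_atTop_add_const_right _ _ (hlog.const_mul_atTop (by linarith))
    refine Filter.tendsto_atTop_mono (fun n => ?_) h3
    have h4 := Nat.lt_floor_add_one (β * Real.logb p n)
    linarith
  · have h3 : ∀ᶠ n : ℕ in Filter.atTop, Real.logb p (1 + 1 / (n : ℝ)) * β < 2 - β := by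
      have h4 : Filter.Tendsto (fun n : ℕ => Real.logb p (1 + 1 / (n : ℝ)) * β) Filter.atTop
          (nhds 0) := by
        have h5 : Filter.Tendsto (fun n : ℕ => 1 + 1 / (n : ℝ)) Filter.atTop (nhds 1) := by
          have := tendsto_one_div_atTop_nhds_zero_nat (𝕜 := ℝ)
          simpa using this.const_add 1
        have h6 : Filter.Tendsto (fun x : ℝ => Real.logb p x) (nhds 1) (nhds 0) := by
          have h7 := (Real.continuousAt_logb (b := (p : ℝ)) (x := 1) one_ne_zero).tendsto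
          rwa [Real.logb_one] at h7
        have h8 := (h6.comp h5).mul_const β
        rw [zero_mul] at h8
        exact h8
      exact h4.eventually (gt_mem_nhds (by linarith))
    filter_upwards [h3, Filter.eventually_ge_atTop 1] with n hn hn1
    have hn1' : (1 : ℝ) ≤ n := by exact_mod_cast hn1
    have hle : ((p * n + 1 : ℕ) : ℝ) ≤ p * (n * (1 + 1 / (n : ℝ))) := by
      push_cast
      have e1 : (p : ℝ) * (n * (1 + 1 / (n : ℝ))) = p * n + p := by
        field_simp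
      rw [e1]
      linarith
    have h4 : Real.logb p ((p * n + 1 : ℕ) : ℝ) ≤ 1 + (Real.logb p n +
        Real.logb p (1 + 1 / (n : ℝ))) := by
      have h5 := Real.logb_le_logb_of_le hp1 (by positivity) hle
      rw [Real.logb_mul (by positivity) (by positivity), Real.logb_mul (by positivity)
        (by positivity), Real.logb_self_eq_one hp1] at h5
      exact h5
    have h6 : β * Real.logb p ((p * n + 1 : ℕ) : ℝ) < β * Real.logb p n + 2 := by
      nlinarith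
    have h7 := Nat.lt_floor_add_one (β * Real.logb p n)
    have h8 : β * Real.logb p ((p * n + 1 : ℕ) : ℝ) < ((⌊β * Real.logb p n⌋₊ + 2 + 1 : ℕ) : ℝ) := by
      push_cast at h6 h7 ⊢
      linarith
    have h9 := (Nat.floor_lt' (by omega)).2 h8
    exact Nat.lt_succ_iff.mp h9
  · filter_upwards [Filter.eventually_ge_atTop 1] with n hn1
    have hn1' : (1 : ℝ) ≤ n := by exact_mod_cast hn1
    have h3 : 0 ≤ Real.logb p n := Real.logb_nonneg hp1 hn1'
    have h4 := Nat.floor_le (a := β * Real.logb p n) (by positivity)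
    nlinarith

end Pool.Agent.H378.JW
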