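import Pool.Agent.H378.JW.Diag
import Pool.Graph.R_pool_sql_team_seeded_b677cdb8.E8helper60.DD.Fin
import Pool.Graph.R_pool_sql_team_seeded_b0a926ef.R674.Ce.Frob

/-!
# Blocks of wreath products with a group of order `p`; the recursion
-/

set_option autoImplicit false
set_option linter.unusedSectionVars false

open scoped BigOperators Classical

noncomputable section

namespace Pool.Agent.H378.JW

open Polynomial
open Pool.Agent.Y63.NV
open Pool.Agent.Y63.AWC (IsIrreducibleCharacter mult St Orb)
open Pool.Agent.Y63.KR (conjSub chainStabilizer alternatingSum IsPChain)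
open Pool.Agent.Q90.WR (apoly apoly_sum anum apoly_congr apoly_coeff anum_card dfn dfn_eq coeff_sum_X
  deg_pos fac_le Ch conjEquiv card_mul_alternatingSum' wsumS)
open Pool.Agent.Helper884.IC (Irr mem_Irr IsIrrChar)
open Pool.Agent.E8helper60.AW
open Pool.Agent.E8helper60.DD
open Pool.Agent.E8helper46.AW (exists_char)
open Pool.Agent.Y809.NV (cv_eq)
open Pool.Agent.Y564.NV (st_cases iv_iff Iv)

variable {F : Type} [Field F] {p : ℕ} (red : integralClosure ℤ ℂ →+* F)
variable {G C : Type} [Group G] [Finite G] [Group C] [Fintype C]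

/-- transport of defects -/
theorem dfn_comp {K K' : Type} [Group K] [Group K'] (e : K ≃* K') (θ : K' → ℂ) :
    dfn p (fun x => θ (e x)) = dfn p θ := by
  unfold dfn
  beta_reduce
  rw [map_one, Nat.card_congr e.toEquiv]

/-- characters of `G ≀ C` over `B`: a constituent of the restriction to the base group -/
theorem base_char {χ : RegularWreathProduct G C → ℂ} (h1 : IsIrreducibleCharacter χ)
    {B : (G → F) → F} (h2 : ∀ f : G → F, IsClassFun f → centralValue red χ (wE G C f) =
      B f ^ Fintype.card C) :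
    ∃ θ : (C → G) → ℂ, IsIrreducibleCharacter θ ∧ OverP B (centralValue red θ) ∧
      (∀ z : RegularWreathProduct G C → F, InZ (bse G C).range z →
        centralValue red χ z = centralValue red θ (fun x => z (bse G C x))) ∧
      (p.Prime → Nat.card C = p → dfn p θ ≤ dfn p χ ∧ dfn p χ ≤ dfn p θ + 1) := by
  have : Fintype G := Fintype.ofFinite G
  have hGr : Fintype (RegularWreathProduct G C) := Fintype.ofFinite _
  let e : (C → G) ≃* (bse G C).range := MonoidHom.ofInjective bse_inj
  have he : ∀ x, ((e x : (bse G C).range) : RegularWreathProduct G C) = bse G C x := fun x => rfl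
  obtain ⟨θ', h3, h4⟩ := Pool.Agent.Y63.AWC.mult_exists (bse G C).range (h1 : IsIrrChar χ)
  have hirr : IsIrreducibleCharacter fun x => θ' (e x) := (irr_comp e).2 h3
  have hval : ∀ z : RegularWreathProduct G C → F, InZ (bse G C).range z →
      centralValue red χ z = centralValue red (fun x => θ' (e x)) (fun x => z (bse G C x)) := by
    intro z hz
    rw [cv_eq (bse G C).range red h1 h3 h4 hz]
    have hcl : IsClassFun fun x : (bse G C).range => z x := fun a b =>
      hz.conj (a : RegularWreathProduct G C) b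
    exact (cv_comp red e h3 hcl).symm
  refine ⟨fun x => θ' (e x), hirr, fun f hf => ?_, hval, fun hp hC => ?_⟩
  · rw [← h2 f hf, hval _ (wE_inz hf)]
    congr 1
    funext x
    rw [wE_bse]
  · have hpF : Fact p.Prime := ⟨hp⟩
    have hr : Nat.card (RegularWreathProduct G C ⧸ (bse G C).range) = p := bse_card.trans hC
    rw [dfn_comp e θ', dfn_over_p (bse G C).range hr h3 h1 h4]
    split_ifs <;> omega

variable [IsAlgClosed F] [hp : Fact p.Prime] [CharP F p]

include red hp in
/-- uniqueness -/
theorem overW_unique_p (hC : Nat.card C = p) {B : (G → F) → F} (hB : IsBlock B)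
    {B' B'' : (RegularWreathProduct G C → F) → F} (hB' : IsBlock B') (hB'' : IsBlock B'')
    (h' : OverW B B') (h'' : OverW B B'') (g : RegularWreathProduct G C → F) (hg : IsClassFun g) :
    B' g = B'' g := by
  have hGr : Fintype (RegularWreathProduct G C) := Fintype.ofFinite _
  have hr : Nat.card (RegularWreathProduct G C ⧸ (bse G C).range) = p := bse_card.trans hC
  refine Pool.Agent.R674.Ce.frob_gen p hB' hB'' _ (bse G C).range le_rfl
    (IsPGroup.of_card (n := 1) (by rw [hr, pow_one])) ?_ g hg
  intro z hz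
  obtain ⟨χ, h1, h2⟩ := exists_char (p := p) red hB'
  obtain ⟨χ', h3, h4⟩ := exists_char (p := p) red hB''
  obtain ⟨θ, a1, a2, a3, -⟩ := base_char (p := p) red h1 (B := B) (fun f hf => by
    rw [h2 _ (wE_inz hf).conj, h' f hf])
  obtain ⟨θ', b1, b2, b3, -⟩ := base_char (p := p) red h3 (B := B) (fun f hf => by
    rw [h4 _ (wE_inz hf).conj, h'' f hf])
  rw [← h2 _ hz.conj, ← h4 _ hz.conj, a3 z hz, b3 z hz]
  refine overP_unique (p := p) red hB (Pool.Agent.Y930.NV.cvh F red _ _ a1)
    (Pool.Agent.Y930.NV.cvh F red _ _ b1) a2 b2 _ ?_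
  intro u x
  change z (bse G C (u * x * u⁻¹)) = z (bse G C x)
  rw [map_mul, map_mul, map_inv]
  exact hz.conj _ _

theorem bwI_eq_bwW_p (hC : Nat.card C = p) {B : (G → F) → F} (hB : IsBlock B)
    {B' : (RegularWreathProduct G C → F) → F} (hB' : IsBlock B') (h' : OverW B B')
    (σ : Ch p (RegularWreathProduct G C)) :
    bwI red p B' (chainStabilizer σ.1) = bwW red p B (chainStabilizer σ.1) := by
  unfold bwI bwW
  congr 1
  ext θ
  constructor
  · rintro ⟨h1, h2⟩
    exact ⟨h1, fun f => (h2 ⟨_, (wE_inz f.2).conj⟩).trans (h' f.1 f.2)⟩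
  · rintro ⟨h1, h2⟩
    refine ⟨h1, fun g => ?_⟩
    have h3 := Pool.Agent.R674.KB.kblk p F red (RegularWreathProduct G C) σ.1 θ σ.2 h1
    exact (overW_unique_p (p := p) red hC hB hB' h3 h' (fun f hf => h2 ⟨f, hf⟩) g.1 g.2).symm

/-- **the recursion for wreath products with a group of order `p`** -/
theorem Pz_wr_p (hC : Nat.card C = p) {B : (G → F) → F} (hB : IsBlock B)
    {B' : (RegularWreathProduct G C → F) → F} (hB' : IsBlock B') (h' : OverW B B') :
    (p : ℤ[X]) * Pz p red B' = Pz p red B ^ p +
      ((p : ℤ[X]) ^ 2 * X - 1) * expand ℤ p (Pz p red B) - (p : ℤ[X]) ^ 2 * X * Pz p red B := by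
  have h1 := Pz_wsum (p := p) red B'
  have h2 : wsumS p (bwI red p B') = wsumS p (bwW red p (C := C) B) := by
    unfold wsumS
    refine Finset.sum_congr rfl fun σ _ => ?_
    rw [bwI_eq_bwW_p red hC hB hB' h' σ]
  rw [h2, wsum_top, cs_top red hC hB, ← Pz_wsum (p := p) red B, mul_pow,
    RegularWreathProduct.card, hC, map_mul, map_natCast] at h1
  have hne : ((Nat.card G : ℚ[X]) ^ p) ≠ 0 :=
    pow_ne_zero _ (by exact_mod_cast (Nat.card_pos (α := G)).ne')
  have hq1 : (Nat.card G : ℚ[X]) ^ p = (Nat.card G : ℚ[X]) ^ (p - 1) * (Nat.card G : ℚ[X]) := by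
    rw [← pow_succ, Nat.sub_add_cancel hp.out.pos]
  apply Qmap_inj
  simp only [Polynomial.map_mul, Polynomial.map_add, Polynomial.map_sub, Polynomial.map_pow,
    Polynomial.map_natCast, Polynomial.map_expand, Polynomial.map_X, Polynomial.map_one]
  push_cast at h1
  refine mul_left_cancel₀ hne ?_
  linear_combination h1 - ((((p : ℚ[X]) ^ 2 * X - 1) *
    expand ℚ p ((Pz p red B).map (Int.castRingHom ℚ))) - (p : ℚ[X]) ^ 2 * X *
    (Pz p red B).map (Int.castRingHom ℚ)) * hq1

end Pool.Agent.H378.JW
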