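import Pool.Agent.H378.JW.Fun
import Pool.Graph.R_pool_sql_team_seeded_b677cdb8.E8helper60.DD.Rec

/-!
# Characters of wreath products with a group of order `p`
-/

set_option autoImplicit false
set_option linter.unusedSectionVars false

open scoped BigOperators Classical

noncomputable section

namespace Pool.Agent.H378.JW

open Polynomial
open Pool.Agent.Y63.NV
open Pool.Agent.Y63.AWC hiding ind
open Pool.Agent.Y63.KR (conjSub)
open Pool.Agent.Q90.WR (apoly apoly_sum anum apoly_congr apoly_coeff anum_card dfn dfn_eq coeff_sum_X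
  deg_pos fac_le)
open Pool.Agent.Helper884.IC
open Pool.Agent.Y564.NV (st_cases iv_iff Iv)
open Pool.Agent.Y809.NV (cv_eq)
open Pool.Agent.E8helper60.AW
open Pool.Agent.E8helper60.DD

section count

variable {Y : Type} [Group Y] [Fintype Y] (M : Subgroup Y) [hM : M.Normal] {p : ℕ} [hp : Fact p.Prime]

/-- the defects -/
theorem dfn_over_p (hr : Nat.card (Y ⧸ M) = p) {theta : M → ℂ} (h : IsIrrChar theta)
    {chi : Y → ℂ} (hc : IsIrrChar chi) (h1 : mult M chi theta ≠ 0) :
    dfn p chi = dfn p theta + (if Nat.card (St M theta) = Nat.card Y then 1 else 0) := by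
  have hr' : Nat.card Y = p * Nat.card M := by
    rw [Subgroup.card_eq_card_quotient_mul_card_subgroup M, hr]
  obtain ⟨n, hn0, hn⟩ := deg_nat hc
  obtain ⟨d, hd0, hd⟩ := deg_nat h
  have hdeg := deg_eq M hc h h1 hn hd
  rw [mult_one' M hr h hc h1, mul_one] at hdeg
  have hpf : p.factorization p = 1 := hp.out.factorization_self
  have hY : (Nat.card Y).factorization p = (Nat.card M).factorization p + 1 := by
    rw [hr', Nat.factorization_mul hp.out.ne_zero Nat.card_pos.ne', Finsupp.add_apply, hpf, add_comm]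
  have hle : d.factorization p ≤ (Nat.card M).factorization p := fac_le (p := p) h hd
  rw [dfn_eq p hn, dfn_eq p hd, hY]
  rcases over_card M hr h with h2 | h2
  · rw [if_pos h2.1]
    have hnf : n = d := by rw [hdeg, h2.2.1, one_mul]
    rw [hnf]
    omega
  · rw [if_neg h2.1]
    have hnf : n.factorization p = d.factorization p + 1 := by
      rw [hdeg, h2.2.1, Nat.factorization_mul hp.out.ne_zero hd0.ne', Finsupp.add_apply, hpf, add_comm]
    rw [hnf]
    omega

theorem count_poly_p (hr : Nat.card (Y ⧸ M) = p) {A : Set (Y → ℂ)} {A' : Set (M → ℂ)}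
    (hA : ∀ θ ∈ A, IsIrreducibleCharacter θ) (hA' : ∀ θ ∈ A', IsIrreducibleCharacter θ)
    (h : ∀ (chi : Y → ℂ) (theta : M → ℂ), IsIrrChar chi → IsIrrChar theta →
      mult M chi theta ≠ 0 → (chi ∈ A ↔ theta ∈ A')) :
    (p : ℚ[X]) * apoly p A = apoly p A' +
      ((p : ℚ[X]) ^ 2 * X - 1) * apoly p {θ : M → ℂ | θ ∈ A' ∧ Iv M θ} := by
  ext d
  have hge : 1 ≤ p ^ 2 := Nat.one_le_pow _ _ hp.out.pos
  have h1 := count_gen M hr (fun chi => chi ∈ A ∧ dfn p chi = d)
    (fun theta => theta ∈ A' ∧
      dfn p theta + (if Nat.card (St M theta) = Nat.card Y then 1 else 0) = d) (by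
      intro chi theta hc ht hm
      rw [dfn_over_p M hr ht hc hm, h chi theta hc ht hm])
  have hI : ∀ k, anum p k {θ : M → ℂ | θ ∈ A' ∧ Iv M θ} =
      ((Irr M).filter fun theta => (theta ∈ A' ∧ dfn p theta = k) ∧
        Nat.card (St M theta) = Nat.card Y).card := by
    intro k
    rw [anum_card (A := {θ : M → ℂ | θ ∈ A' ∧ Iv M θ}) (fun θ h => hA' θ h.1)]
    congr 1
    ext t
    simp only [Finset.mem_filter, mem_Irr, Set.mem_ofPred_eq]
    rw [← iv_iff]
    tauto
  have hN : ∀ k, anum p k A' = ((Irr M).filter fun theta => theta ∈ A' ∧ dfn p theta = k).card := by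
    intro k
    rw [anum_card hA']
  -- the invariant characters of defect `d - 1`
  have hJ : ((((Irr M).filter fun theta => (theta ∈ A' ∧
      dfn p theta + (if Nat.card (St M theta) = Nat.card Y then 1 else 0) = d) ∧
        Nat.card (St M theta) = Nat.card Y).card : ℕ) : ℚ) =
      (X * apoly p {θ : M → ℂ | θ ∈ A' ∧ Iv M θ}).coeff d := by
    cases d with
    | zero =>
      rw [coeff_X_mul_zero]
      rw [Nat.cast_eq_zero, Finset.card_eq_zero, Finset.filter_eq_empty_iff]
      rintro t - ⟨⟨-, h3⟩, h4⟩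
      rw [if_pos h4] at h3
      omega
    | succ k =>
      rw [coeff_X_mul, apoly_coeff, hI]
      congr 2
      ext t
      simp only [Finset.mem_filter]
      constructor
      · rintro ⟨h2, ⟨h3, h4⟩, h5⟩
        rw [if_pos h5] at h4
        exact ⟨h2, ⟨h3, by omega⟩, h5⟩
      · rintro ⟨h2, ⟨h3, h4⟩, h5⟩
        rw [if_pos h5]
        exact ⟨h2, ⟨h3, by omega⟩, h5⟩
  have hK : ((Irr M).filter fun theta => theta ∈ A' ∧
      dfn p theta + (if Nat.card (St M theta) = Nat.card Y then 1 else 0) = d).card =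
      ((Irr M).filter fun theta => (theta ∈ A' ∧ dfn p theta = d) ∧
        Nat.card (St M theta) ≠ Nat.card Y).card +
      ((Irr M).filter fun theta => (theta ∈ A' ∧
      dfn p theta + (if Nat.card (St M theta) = Nat.card Y then 1 else 0) = d) ∧
        Nat.card (St M theta) = Nat.card Y).card := by
    rw [← Finset.card_union_of_disjoint]
    · congr 1
      ext t
      simp only [Finset.mem_filter, Finset.mem_union]
      by_cases h5 : Nat.card (St M t) = Nat.card Y
      · simp only [h5, if_true, ne_eq, not_true_eq_false, and_false, false_or, and_true]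
      · simp only [h5, if_false, ne_eq, not_false_eq_true, and_true, and_false, or_false, add_zero]
    · rw [Finset.disjoint_left]
      intro t h2 h3
      exact (Finset.mem_filter.mp h2).2.2 (Finset.mem_filter.mp h3).2.2
  have hL : anum p d A' = ((Irr M).filter fun theta => (theta ∈ A' ∧ dfn p theta = d) ∧
        Nat.card (St M theta) ≠ Nat.card Y).card + anum p d {θ : M → ℂ | θ ∈ A' ∧ Iv M θ} := by
    rw [hI, hN, ← Finset.card_union_of_disjoint]
    · congr 1
      ext t
      simp only [Finset.mem_filter, Finset.mem_union]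
      tauto
    · rw [Finset.disjoint_left]
      intro t h2 h3
      exact (Finset.mem_filter.mp h2).2.2 (Finset.mem_filter.mp h3).2.2
  have hP : anum p d A = ((Irr Y).filter fun chi => chi ∈ A ∧ dfn p chi = d).card := by
    rw [anum_card hA]
  have e1 : ((p : ℚ[X]) ^ 2 * X - 1) * apoly p {θ : M → ℂ | θ ∈ A' ∧ Iv M θ} =
      C ((p : ℚ) ^ 2) * (X * apoly p {θ : M → ℂ | θ ∈ A' ∧ Iv M θ}) -
        apoly p {θ : M → ℂ | θ ∈ A' ∧ Iv M θ} := by
    rw [C_pow, C_eq_natCast]
    ring
  rw [e1, coeff_add, coeff_sub, coeff_C_mul, ← hJ, ← C_eq_natCast, coeff_C_mul, apoly_coeff,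
    apoly_coeff, apoly_coeff, hP, hL]
  have h3 : p * ((Irr Y).filter fun chi => chi ∈ A ∧ dfn p chi = d).card =
      (((Irr M).filter fun theta => (theta ∈ A' ∧ dfn p theta = d) ∧
        Nat.card (St M theta) ≠ Nat.card Y).card +
      ((Irr M).filter fun theta => (theta ∈ A' ∧
      dfn p theta + (if Nat.card (St M theta) = Nat.card Y then 1 else 0) = d) ∧
        Nat.card (St M theta) = Nat.card Y).card) + (p ^ 2 - 1) *
      ((Irr M).filter fun theta => (theta ∈ A' ∧
      dfn p theta + (if Nat.card (St M theta) = Nat.card Y then 1 else 0) = d) ∧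
        Nat.card (St M theta) = Nat.card Y).card := by
    rw [← hK]
    convert h1
  have h2 := congrArg (Nat.cast : ℕ → ℚ) h3
  rw [Nat.cast_mul] at h2
  rw [h2]
  push_cast [Nat.cast_sub hge]
  ring

end count

section wr

variable {F : Type} [Field F] (red : integralClosure ℤ ℂ →+* F)
variable {G H C : Type} [Group G] [Group H] [Finite H] [Group C] [Fintype C] {p : ℕ}

/-- **wreath products with a group of order `p`** -/
theorem apoly_OvW_p [hp : Fact p.Prime] (hC : Nat.card C = p)
    {B : (G → F) → F} (hB : IsBlock B) (π : H →* G) (hπ : Function.Injective π) :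
    (p : ℚ[X]) * apoly p (OvW red C B (wm C π)) = apoly p (IndB red B π) ^ p +
      ((p : ℚ[X]) ^ 2 * X - 1) * expand ℚ p (apoly p (IndB red B π)) := by
  have hCq : Fintype.card C = p := by rw [← Nat.card_eq_fintype_card, hC]
  have hGr : Fintype (RegularWreathProduct H C) := Fintype.ofFinite _
  have : Fintype H := Fintype.ofFinite _
  set M : Subgroup (RegularWreathProduct H C) := (bse H C).range with hM
  let e : (C → H) ≃* M := MonoidHom.ofInjective bse_inj
  have he : ∀ x, ((e x : M) : RegularWreathProduct H C) = bse H C x := fun x => rfl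
  have hr : Nat.card (RegularWreathProduct H C ⧸ M) = p := bse_card.trans hC
  -- characters of the base group
  set QM : Set (M → ℂ) := Ov red (fun f : CF F G => wE G C f.1) (fun f => B f.1 ^ Fintype.card C)
    (fun x : M => wm C π x) with hQM
  have hcl : ∀ t : CF F G, IsClassFun fun x : M => wE G C t.1 (wm C π x) := by
    intro t g x
    exact (wE_inz (C := C) (cf_comp π t.2)).conj g x
  have hE : ∀ θ : M → ℂ, (fun x => θ (e x)) ∈ TS (fun _ : C => IndB red B π) ↔ θ ∈ QM := by
    intro θ
    rw [← OvP_eq red hB (fun _ : C => π) fun _ => hπ]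
    have h1 := Ov_congr red e (E := fun f : CF F G => wE G C f.1)
      (v := fun f => B f.1 ^ Fintype.card C) (π := fun x : C → H => wm C π (bse H C x))
      (π' := fun x : M => wm C π x) hcl (fun t x => rfl) θ
    rw [hQM, ← h1]
    have h2 : Ov red (fun f : CF F G => wE G C f.1) (fun f => B f.1 ^ Fintype.card C)
        (fun x : C → H => wm C π (bse H C x)) = OvP red B (fun (x : C → H) i => π (x i)) := by
      unfold OvP Ov
      have h3 : ∀ (f : CF F G) (x : C → H), wE G C f.1 (wm C π (bse H C x)) =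
          (tens fun _ : C => f.1) (fun i => π (x i)) := by
        intro f x
        rw [wE_wm, wE_bse]
        rfl
      simp only [h3]
    rw [h2]
  have hA : ∀ θ ∈ IndB red B π, IsIrreducibleCharacter θ := fun θ h => h.1
  have hQirr : ∀ θ ∈ QM, IsIrreducibleCharacter θ := fun θ h => h.1
  have hPirr : ∀ θ ∈ OvW red C B (wm C π), IsIrreducibleCharacter θ := fun θ h => h.1
  have hQ1 : apoly p QM = apoly p (IndB red B π) ^ p := by
    rw [← apoly_congr e _ _ hE, apoly_TS p fun _ => hA, Finset.prod_const, Finset.card_univ, hCq]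
  -- invariant characters
  have hI : ∀ θ : M → ℂ, (fun x => θ (e x)) ∈ {θ : (C → H) → ℂ | ∃ ψ ∈ IndB red B π,
      θ = tens fun _ => ψ} ↔ θ ∈ {θ : M → ℂ | θ ∈ QM ∧ Iv M θ} := by
    intro θ
    constructor
    · rintro ⟨ψ, h1, h2⟩
      refine ⟨(hE θ).1 ⟨fun _ => ψ, fun _ => h1, h2⟩, ?_⟩
      intro y a b hab
      obtain ⟨x, rfl⟩ := e.surjective a
      obtain ⟨x', rfl⟩ := e.surjective b
      have h3 := congrFun h2 x
      have h4 := congrFun h2 x'
      refine h4.trans (Eq.trans ?_ h3.symm)
      rw [he, he, conj_bse] at hab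
      unfold tens
      have hψ : ∀ g x, ψ (g * x * g⁻¹) = ψ x := Pool.Agent.Y930.NV.irr_Cf (hA ψ h1)
      have h5 : ∀ i : C, ψ (x' i) = ψ (x (y.right⁻¹ * i)) := fun i => by rw [hab i, hψ]
      refine (Finset.prod_congr rfl fun i _ => h5 i).trans ?_
      exact Fintype.prod_equiv (Equiv.mulLeft y.right⁻¹) _ _ fun i => rfl
    · rintro ⟨h1, h2⟩
      obtain ⟨χ, h3, h4⟩ := (hE θ).2 h1
      have h5 : ∀ c : C, χ = fun i => χ (c⁻¹ * i) := by
        intro c
        refine tens_inj (fun i => (h3 i).1) (fun i => (h3 _).1) ?_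
        rw [← h4]
        funext x
        have h6 : bse H C x = (⟨1, c⟩ : RegularWreathProduct H C) * bse H C (fun i => x (c * i)) *
            (⟨1, c⟩ : RegularWreathProduct H C)⁻¹ := by
          rw [conj_bse]
          intro i
          simp
        have h7 := h2 ⟨1, c⟩ (e fun i => x (c * i)) (e x) (by rw [he, he]; exact h6)
        refine h7.trans ((congrFun h4 _).trans ?_)
        unfold tens
        refine Fintype.prod_equiv (Equiv.mulLeft c) _ _ fun i => ?_
        change χ i (x (c * i)) = χ (c⁻¹ * (c * i)) (x (c * i))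
        rw [inv_mul_cancel_left]
      refine ⟨χ 1, h3 1, ?_⟩
      rw [h4]
      congr 1
      funext i
      have h6 := congrFun (h5 i) i
      rw [inv_mul_cancel] at h6
      exact h6
  have hQ2 : apoly p {θ : M → ℂ | θ ∈ QM ∧ Iv M θ} = expand ℚ p (apoly p (IndB red B π)) := by
    rw [← apoly_congr e _ _ hI, apoly_bsS p hA, hCq]
  -- the count
  rw [← hQ1, ← hQ2]
  refine count_poly_p M hr hPirr hQirr ?_
  intro chi theta hc ht hm
  have h2 : ∀ f : CF F G, centralValue red chi (fun x => wE G C f.1 (wm C π x)) =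
      centralValue red theta (fun x : M => wE G C f.1 (wm C π x)) := fun f =>
    cv_eq M red hc ht hm (wE_inz (C := C) (cf_comp π f.2))
  constructor
  · rintro ⟨-, h3⟩
    exact ⟨ht, fun f => (h2 f).symm.trans (h3 f)⟩
  · rintro ⟨-, h3⟩
    exact ⟨hc, fun f => (h2 f).trans (h3 f)⟩

end wr

section base

variable {F : Type} [Field F] (red : integralClosure ℤ ℂ →+* F) {p : ℕ} [hp : Fact p.Prime]
variable {G : Type} [Group G] [Finite G]

open Pool.Agent.Q90.WR (wsumS Ch)
open Pool.Agent.Y63.KR (chainStabilizer)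
open Pool.Agent.H378.AC (CS ChX)

theorem bwW_wrS_p {C : Type} [Group C] [Fintype C]
    (hC : Nat.card C = p) {B : (G → F) → F} (hB : IsBlock B) (g : RegularWreathProduct G C)
    (H : Subgroup G) : (p : ℚ[X]) * bwW red p B (conjSub g (wrS H)) = bwI red p B H ^ p +
      ((p : ℚ[X]) ^ 2 * X - 1) * expand ℚ p (bwI red p B H) := by
  rw [bwW_conj]
  have h1 := apoly_OvW_p red (C := C) hC hB H.subtype (Subgroup.subtype_injective _)
  unfold bwI
  refine Eq.trans ?_ h1
  congr 1
  unfold bwW
  symm
  refine apoly_Ov red (wrE H) p (fun t a b => ?_) fun t x => rfl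
  exact (wE_inz (C := C) t.2).conj (a : RegularWreathProduct G C) b

/-- **the chains of the base group** -/
theorem cs_base {C : Type} [Group C] [Fintype C] (hC : Nat.card C = p) {B : (G → F) → F}
    (hB : IsBlock B) :
    CS p (bse G C).range (fun H : Subgroup (RegularWreathProduct G C) =>
      (Nat.card H : ℚ[X]) * bwW red p B H) = wsumS p (bwI red p B) ^ p +
      ((p : ℚ[X]) ^ 2 * X - 1) * (Nat.card G : ℚ[X]) ^ (p - 1) *
        expand ℚ p (wsumS p (bwI red p B)) := by
  have hCq : Fintype.card C = p := by rw [← Nat.card_eq_fintype_card, hC]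
  have hq1 : p - 1 + 1 = p := Nat.sub_add_cancel hp.out.pos
  unfold wsumS
  rw [functional_base (hC ▸ hp.out)
    (fun H : Subgroup (RegularWreathProduct G C) => (Nat.card H : ℚ[X]) * bwW red p B H), hC]
  congr 1
  · have h1 : (∑ σ : Ch p G, (-1 : ℚ[X]) ^ σ.1.ncard * ((Nat.card (chainStabilizer σ.1) : ℚ[X]) *
        bwI red p B (chainStabilizer σ.1))) ^ p =
        (∏ _c : C, ∑ σ : Ch p G, (-1 : ℚ[X]) ^ σ.1.ncard *
          ((Nat.card (chainStabilizer σ.1) : ℚ[X]) * bwI red p B (chainStabilizer σ.1))) := by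
      rw [Finset.prod_const, Finset.card_univ, hCq]
    rw [h1, Finset.prod_univ_sum, Fintype.piFinset_univ]
    refine Finset.sum_congr rfl fun σ _ => ?_
    rw [bwW_prd red p hB, card_prd, Finset.prod_mul_distrib, Finset.prod_mul_distrib]
    push_cast
    ring
  · rw [map_sum, Finset.mul_sum]
    refine Finset.sum_congr rfl fun σ _ => ?_
    set H := chainStabilizer σ.1 with hH
    have e1 : ∀ b : Bs G C, ((Nat.card (conjSub (bse G C b.1) (wrS H)) : ℚ[X]) *
        bwW red p B (conjSub (bse G C b.1) (wrS H)) -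
        (Nat.card (prd fun c => conjSub (b.1 c) H : Subgroup (RegularWreathProduct G C)) : ℚ[X]) *
          bwW red p B (prd fun c => conjSub (b.1 c) H)) =
        (Nat.card H : ℚ[X]) ^ p * (((p : ℚ[X]) ^ 2 * X - 1) * expand ℚ p (bwI red p B H)) := by
      intro b
      rw [bwW_prd red p hB, card_prd, card_conj, ← Nat.card_congr (wrE (C := C) H).toEquiv,
        RegularWreathProduct.card, hC]
      simp only [bwI_conj, card_conj]
      rw [Finset.prod_const, Finset.prod_const, Finset.card_univ, hCq]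
      have h2 := bwW_wrS_p red hC hB (bse G C b.1) H
      push_cast
      linear_combination (Nat.card H : ℚ[X]) ^ p * h2
    rw [Finset.sum_congr rfl fun b _ => e1 b, Finset.sum_const, Finset.card_univ, card_Bs, hCq,
      nsmul_eq_mul, map_mul, map_mul]
    have hne : ((Nat.card H : ℚ) ^ (p - 1)) ≠ 0 :=
      pow_ne_zero _ (by exact_mod_cast (Nat.card_pos (α := H)).ne')
    have h3 : (Nat.card H : ℚ[X]) ^ p = (Polynomial.C ((Nat.card H : ℚ) ^ (p - 1))) * (Nat.card H : ℚ[X]) := by
      rw [C_pow, C_eq_natCast, ← pow_succ, hq1]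
    have h4 : ((((Nat.card H : ℚ) ^ (p - 1))⁻¹) • (((Nat.card G ^ (p - 1) : ℕ) : ℚ[X]) *
        ((Nat.card H : ℚ[X]) ^ p * (((p : ℚ[X]) ^ 2 * X - 1) * expand ℚ p (bwI red p B H))))) =
        ((Nat.card G ^ (p - 1) : ℕ) : ℚ[X]) *
        ((Nat.card H : ℚ[X]) * (((p : ℚ[X]) ^ 2 * X - 1) * expand ℚ p (bwI red p B H))) := by
      rw [h3, smul_eq_C_mul]
      have h5 : (Polynomial.C (((Nat.card H : ℚ) ^ (p - 1))⁻¹) : ℚ[X]) *
          Polynomial.C ((Nat.card H : ℚ) ^ (p - 1)) = 1 := by
        rw [← C_mul, inv_mul_cancel₀ hne, C_1]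
      linear_combination (((Nat.card G ^ (p - 1) : ℕ) : ℚ[X]) *
        ((Nat.card H : ℚ[X]) * (((p : ℚ[X]) ^ 2 * X - 1) * expand ℚ p (bwI red p B H)))) * h5
    rw [h4, map_pow, map_neg, map_one, map_natCast]
    push_cast
    ring

end base

end Pool.Agent.H378.JW
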