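import Pool.Agent.H378.JW.Frob

/-!
# The complements and their centralisers
-/

set_option autoImplicit false
set_option linter.unusedSectionVars false

open scoped BigOperators Classical

noncomputable section

namespace Pool.Agent.H378.JW

open Polynomial
open Pool.Agent.Y63.NV
open Pool.Agent.Y63.AWC hiding ind
open Pool.Agent.Y63.KR (conjSub chainStabilizer mem_chainStabilizer IsPChain)
open Pool.Agent.Q90.WR (apoly apoly_sum anum apoly_congr apoly_coeff anum_card dfn dfn_eq coeff_sum_X
  deg_pos fac_le wsumS Ch)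
open Pool.Agent.Helper884.IC
open Pool.Agent.Y564.NV (st_cases iv_iff Iv)
open Pool.Agent.Y809.NV (cv_eq)
open Pool.Agent.E8helper60.AW
open Pool.Agent.E8helper60.DD
open Pool.Agent.H378.AC

section count

variable {F : Type} [Field F] (red : integralClosure ℤ ℂ →+* F)
variable {G H C : Type} [Group G] [Group H] [Finite H] [Group C] [Fintype C] {p : ℕ}
  [hp : Fact p.Prime] [CharP F p]

/-- characters of `H × C` -/
theorem apoly_diag (hC : Nat.card C = p) (B : (G → F) → F) (π : H →* G) :
    apoly p (OvW red C B (fun x : H × C => (⟨fun _ => π x.1, x.2⟩ : RegularWreathProduct G C))) =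
      (p : ℚ[X]) * (X * apoly p (IndB red B π)) := by
  have hCq : Fintype.card C = p := by rw [← Nat.card_eq_fintype_card, hC]
  have : Fintype H := Fintype.ofFinite _
  set M : Subgroup (H × C) := (MonoidHom.snd H C).ker with hM
  have hmem : ∀ x : H × C, x ∈ M ↔ x.2 = 1 := fun x => Iff.rfl
  let e : H ≃* M :=
    { toFun := fun h => ⟨(h, 1), rfl⟩
      invFun := fun x => x.1.1
      left_inv := fun h => rfl
      right_inv := fun x => by
        apply Subtype.ext
        exact Prod.ext rfl ((hmem x.1).1 x.2).symm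
      map_mul' := fun a b => by
        apply Subtype.ext
        exact Prod.ext rfl (mul_one 1).symm }
  have hr : Nat.card ((H × C) ⧸ M) = p := by
    rw [← hC]
    exact Nat.card_congr (QuotientGroup.quotientKerEquivOfSurjective (MonoidHom.snd H C)
      Prod.snd_surjective).toEquiv
  set A' : Set (M → ℂ) := Ov red (fun f : CF F G => wE G C f.1) (fun f => B f.1 ^ Fintype.card C)
    (fun x : M => (⟨fun _ => π x.1.1, x.1.2⟩ : RegularWreathProduct G C)) with hA'
  have hval : ∀ (f : CF F G) (x : H × C), wE G C f.1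
      (⟨fun _ => π x.1, x.2⟩ : RegularWreathProduct G C) = if x.2 = 1 then f.1 (π x.1) ^ p else 0 := by
    intro f x
    change (if x.2 = 1 then ∏ _c : C, f.1 (π x.1) else 0) = _
    rw [Finset.prod_const, Finset.card_univ, hCq]
  have hinz : ∀ f : CF F G, InZ M (fun x : H × C => wE G C f.1
      (⟨fun _ => π x.1, x.2⟩ : RegularWreathProduct G C)) := by
    intro f
    refine ⟨fun g x => ?_, fun x hx => ?_⟩
    · rw [hval, hval]
      have h1 : (g * x * g⁻¹).2 = g.2 * x.2 * g.2⁻¹ := rfl
      have h2 : (g * x * g⁻¹).1 = g.1 * x.1 * g.1⁻¹ := rfl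
      have h3 : (g * x * g⁻¹).2 = 1 ↔ x.2 = 1 := by
        rw [h1]
        constructor
        · intro h
          have : x.2 = g.2⁻¹ * (g.2 * x.2 * g.2⁻¹) * g.2 := by group
          rw [this, h]
          group
        · intro h
          rw [h]
          group
      simp only [h3]
      rw [h2, map_mul, map_mul, map_inv, f.2]
    · rw [hval, if_neg (fun h => hx ((hmem x).2 h))]
  have h1 := count_poly_p M hr (A := OvW red C B (fun x : H × C =>
    (⟨fun _ => π x.1, x.2⟩ : RegularWreathProduct G C))) (A' := A') (fun θ h => h.1)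
    (fun θ h => h.1) (by
      intro chi theta hc ht hm
      have h2 := fun f : CF F G => cv_eq M red hc ht hm (hinz f)
      constructor
      · rintro ⟨-, h3⟩
        exact ⟨ht, fun f => (h2 f).symm.trans (h3 f)⟩
      · rintro ⟨-, h3⟩
        exact ⟨hc, fun f => (h2 f).trans (h3 f)⟩)
  have hall : {θ : M → ℂ | θ ∈ A' ∧ Iv M θ} = A' := by
    ext θ
    refine ⟨fun h => h.1, fun h => ⟨h, ?_⟩⟩
    intro y a b hab
    have hcl : ∀ g x, θ (g * x * g⁻¹) = θ x := Pool.Agent.Y930.NV.irr_Cf h.1
    rw [← hcl ⟨(y.1, 1), rfl⟩ a]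
    congr 1
    apply Subtype.ext
    rw [hab]
    refine Prod.ext rfl ?_
    change y.2 * a.1.2 * y.2⁻¹ = 1 * a.1.2 * 1⁻¹
    have h2 : a.1.2 = 1 := (hmem a.1).1 a.2
    rw [h2]
    group
  have hE : apoly p A' = apoly p (IndB red B π) := by
    rw [← apoly_frob red B π, hA']
    symm
    have hcl : ∀ t : CF F G, IsClassFun fun x : M => wE G C t.1
        (⟨fun _ => π x.1.1, x.1.2⟩ : RegularWreathProduct G C) := fun t g x =>
      (hinz t).1 (g : H × C) x
    have h2 := apoly_Ov red e (E := fun f : CF F G => wE G C f.1)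
      (v := fun f => B f.1 ^ Fintype.card C)
      (π := fun x : H => (⟨fun _ => π x, 1⟩ : RegularWreathProduct G C))
      (π' := fun x : M => (⟨fun _ => π x.1.1, x.1.2⟩ : RegularWreathProduct G C)) p hcl
      (fun t x => rfl)
    rw [← h2]
    congr 1
    unfold Ov
    have h3 : ∀ (f : CF F G) (x : H), wE G C f.1 (⟨fun _ => π x, 1⟩ : RegularWreathProduct G C) =
        f.1 (π x) ^ p := fun f x => (hval f (x, 1)).trans (if_pos rfl)
    simp only [h3, hCq]
  rw [hall, hE] at h1
  have hp0 : (p : ℚ[X]) ≠ 0 := by exact_mod_cast hp.out.ne_zero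
  refine mul_left_cancel₀ hp0 ?_
  rw [h1]
  ring

end count

section compl

variable {G C : Type} [Group G] [Finite G] [Group C] [Fintype C] {p : ℕ} [hp : Fact p.Prime]

/-- the diagonal embedding -/
def dg (G C : Type) [Group G] [Group C] : G →* RegularWreathProduct G C where
  toFun g := ⟨fun _ => g, 1⟩
  map_one' := rfl
  map_mul' g h := by
    apply RegularWreathProduct.ext
    · funext c
      simp
    · simp

/-- the complement -/
def cp (G C : Type) [Group G] [Group C] : C →* RegularWreathProduct G C where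
  toFun c := ⟨fun _ => 1, c⟩
  map_one' := rfl
  map_mul' g h := by
    apply RegularWreathProduct.ext
    · funext c
      simp
    · rfl

omit [Finite G] [Fintype C] in
lemma dg_inj : Function.Injective (dg G C) := fun _ _ e =>
  congrFun (congrArg RegularWreathProduct.left e) 1

omit [Finite G] [Fintype C] in
lemma cp_inj : Function.Injective (cp G C) := fun _ _ e => congrArg RegularWreathProduct.right e

/-- the conjugates of the complement -/
def Qb (b : C → G) : Subgroup (RegularWreathProduct G C) := conjSub (bse G C b) (cp G C).range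

lemma mem_Qb {b : C → G} {s : RegularWreathProduct G C} :
    s ∈ Qb b ↔ ∀ i, s.left i = b i * (b (s.right⁻¹ * i))⁻¹ := by
  unfold Qb
  rw [mem_conjSub']
  constructor
  · rintro ⟨c, hc⟩ i
    have e1 : s = bse G C b * cp G C c * (bse G C b)⁻¹ := by
      rw [hc]; group
    rw [e1]
    simp [bse, cp]
  · intro h
    refine ⟨s.right, ?_⟩
    apply RegularWreathProduct.ext
    · funext i
      simp [bse, cp, h i]
    · simp [bse, cp]

lemma card_Qb (b : C → G) : Nat.card (Qb b) = Nat.card C := by
  unfold Qb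
  rw [card_conj]
  exact (Nat.card_congr (MonoidHom.ofInjective cp_inj).toEquiv).symm

lemma Qb_inf (b : C → G) : Qb b ⊓ (bse G C).range = ⊥ := by
  rw [Subgroup.eq_bot_iff_forall]
  rintro s ⟨h1, h2⟩
  have h3 := mem_range.mp h2
  have h4 := mem_Qb.mp h1
  apply RegularWreathProduct.ext
  · funext i
    rw [h4 i, h3, inv_one, one_mul, mul_inv_cancel]
    rfl
  · exact h3

/-- the complements of the base group -/
lemma OQ_eq (hC : Nat.card C = p) : OQ p (bse G C).range =
    Finset.univ.image (fun b : Bs G C => Qb b.1) := by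
  ext Q
  rw [mem_OQ, Finset.mem_image]
  constructor
  · rintro ⟨h1, h2⟩
    have hinj : Function.Injective (fun s : Q => (s : RegularWreathProduct G C).right) := by
      intro s t h
      have h3 : (s : RegularWreathProduct G C) * (t : RegularWreathProduct G C)⁻¹ ∈
          Q ⊓ (bse G C).range := by
        refine ⟨Q.mul_mem s.2 (Q.inv_mem t.2), mem_range.mpr ?_⟩
        change (s : RegularWreathProduct G C).right * (t : RegularWreathProduct G C).right⁻¹ = 1
        rw [show (s : RegularWreathProduct G C).right = (t : RegularWreathProduct G C).right from h,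
          mul_inv_cancel]
      rw [h2, Subgroup.mem_bot] at h3
      exact Subtype.ext (mul_inv_eq_one.mp h3)
    have hbij : Function.Bijective (fun s : Q => (s : RegularWreathProduct G C).right) := by
      rw [Nat.bijective_iff_injective_and_card]
      exact ⟨hinj, by rw [h1, hC]⟩
    have hs : ∀ c : C, ∃ s ∈ Q, (s : RegularWreathProduct G C).right = c := fun c => by
      obtain ⟨s, hs⟩ := hbij.2 c
      exact ⟨s, s.2, hs⟩
    choose s hs1 hs2 using hs
    have hu : ∀ t ∈ Q, t = s t.right := fun t ht =>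
      congrArg Subtype.val (hinj (a₁ := ⟨t, ht⟩) (a₂ := ⟨s t.right, hs1 _⟩) (hs2 _).symm)
    have h3 : s 1 = 1 := (hu 1 Q.one_mem).symm
    have h4 : (s 1).left 1 = 1 := by rw [h3]; rfl
    refine ⟨⟨fun c => (s c).left c, h4⟩, Finset.mem_univ _, ?_⟩
    symm
    apply Subgroup.eq_of_le_of_card_ge
    · intro t ht
      rw [mem_Qb]
      intro i
      have h5 : s i = t * s (t.right⁻¹ * i) := by
        have h6 := hu (t * s (t.right⁻¹ * i)) (Q.mul_mem ht (hs1 _))
        have h7 : (t * s (t.right⁻¹ * i)).right = i := by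
          change t.right * (s (t.right⁻¹ * i)).right = i
          rw [hs2, mul_inv_cancel_left]
        rw [h7] at h6
        exact h6.symm
      have h8 : (s i).left i = t.left i * (s (t.right⁻¹ * i)).left (t.right⁻¹ * i) := by
        rw [h5]
        rfl
      change t.left i = (s i).left i * ((s (t.right⁻¹ * i)).left (t.right⁻¹ * i))⁻¹
      rw [h8, mul_inv_cancel_right]
    · rw [card_Qb, h1, hC]
  · rintro ⟨b, -, rfl⟩
    exact ⟨by rw [card_Qb, hC], Qb_inf _⟩

lemma Qb_inj : Function.Injective (fun b : Bs G C => Qb b.1) := by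
  intro b b' h
  have h' : Qb b.1 = Qb b'.1 := h
  apply Subtype.ext
  funext c
  have h1 : bse G C b.1 * cp G C c * (bse G C b.1)⁻¹ ∈ Qb b.1 :=
    ⟨cp G C c, ⟨c, rfl⟩, rfl⟩
  have h2 := mem_Qb.mp (show _ ∈ Qb b'.1 from h' ▸ h1) c
  have h3 := mem_Qb.mp h1 c
  have e : (bse G C b.1 * cp G C c * (bse G C b.1)⁻¹).right⁻¹ * c = 1 := by
    simp [bse, cp]
  rw [e] at h2 h3
  rw [b.2, inv_one, mul_one] at h3
  rw [b'.2, inv_one, mul_one] at h2
  rw [← h3, h2]

/-- the embedding of `G` as the centraliser -/
def ib (b : C → G) : G →* RegularWreathProduct G C :=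
  (MulAut.conj (bse G C b)).toMonoidHom.comp (dg G C)

lemma ib_inj (b : C → G) : Function.Injective (ib b) :=
  (MulAut.conj (bse G C b)).injective.comp dg_inj

variable (hC : Nat.card C = p)

include hC in
lemma comm_C (c d : C) : c * d = d * c := by
  have : IsCyclic C := isCyclic_of_prime_card hC
  obtain ⟨g, hg⟩ := ‹IsCyclic C›.exists_generator
  obtain ⟨i, rfl⟩ := Subgroup.mem_zpowers_iff.mp (hg c)
  obtain ⟨j, rfl⟩ := Subgroup.mem_zpowers_iff.mp (hg d)
  rw [← zpow_add, ← zpow_add, add_comm]

include hC in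
/-- the centraliser of the complement -/
lemma cent_iff {s : RegularWreathProduct G C} :
    (∀ q ∈ (cp G C).range, q * s = s * q) ↔ ∀ i, s.left i = s.left 1 := by
  constructor
  · intro h i
    have h1 := congrArg (fun t => t.left i) (h (cp G C i) ⟨i, rfl⟩)
    simp [cp] at h1
    exact h1.symm
  · rintro h _ ⟨c, rfl⟩
    apply RegularWreathProduct.ext
    · funext i
      simp [cp]
      rw [h, h i]
    · simp [cp]
      exact comm_C hC _ _

include hC in
lemma range_ib (b : C → G) : (ib b).range = CQ (bse G C).range (Qb b) := by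
  ext s
  have hs : ∀ t : RegularWreathProduct G C, (bse G C b)⁻¹ * (bse G C b * t * (bse G C b)⁻¹) *
      bse G C b = t := fun t => by group
  have hs' : ∀ t : RegularWreathProduct G C, bse G C b * ((bse G C b)⁻¹ * t * (bse G C b)) *
      (bse G C b)⁻¹ = t := fun t => by group
  rw [mem_CQ]
  constructor
  · rintro ⟨g, rfl⟩
    refine ⟨mem_range.mpr (by simp [ib, bse, dg]), ?_⟩
    rintro _ ⟨q, hq, rfl⟩
    have h1 := (cent_iff hC (s := dg G C g)).2 (fun i => rfl) q hq
    change bse G C b * q * (bse G C b)⁻¹ * (bse G C b * dg G C g * (bse G C b)⁻¹) =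
      bse G C b * dg G C g * (bse G C b)⁻¹ * (bse G C b * q * (bse G C b)⁻¹)
    calc _ = bse G C b * (q * dg G C g) * (bse G C b)⁻¹ := by group
      _ = bse G C b * (dg G C g * q) * (bse G C b)⁻¹ := by rw [h1]
      _ = _ := by group
  · rintro ⟨h1, h2⟩
    have h3 : ∀ q ∈ (cp G C).range, q * ((bse G C b)⁻¹ * s * (bse G C b)) =
        ((bse G C b)⁻¹ * s * (bse G C b)) * q := by
      intro q hq
      have h4 := h2 (bse G C b * q * (bse G C b)⁻¹) ⟨q, hq, rfl⟩
      calc q * ((bse G C b)⁻¹ * s * (bse G C b)) =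
          (bse G C b)⁻¹ * ((bse G C b * q * (bse G C b)⁻¹) * s) * (bse G C b) := by group
        _ = (bse G C b)⁻¹ * (s * (bse G C b * q * (bse G C b)⁻¹)) * (bse G C b) := by rw [h4]
        _ = _ := by group
    rw [cent_iff hC] at h3
    refine ⟨((bse G C b)⁻¹ * s * (bse G C b)).left 1, ?_⟩
    change bse G C b * dg G C _ * (bse G C b)⁻¹ = s
    have h5 : dg G C (((bse G C b)⁻¹ * s * (bse G C b)).left 1) = (bse G C b)⁻¹ * s * (bse G C b) := by
      apply RegularWreathProduct.ext
      · funext i
        exact (h3 i).symm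
      · have h6 := mem_range.mp h1
        simp [bse, dg, h6]
    rw [h5, hs']

/-- the subgroup of the pairs -/
def hc (H : Type) [Group H] (π : H →* G) : H × C →* RegularWreathProduct G C where
  toFun x := ⟨fun _ => π x.1, x.2⟩
  map_one' := by
    apply RegularWreathProduct.ext
    · funext c
      exact map_one π
    · rfl
  map_mul' x y := by
    apply RegularWreathProduct.ext
    · funext c
      simp
    · simp

lemma hc_inj {H : Type} [Group H] {π : H →* G} (hπ : Function.Injective π) :
    Function.Injective (hc (C := C) H π) := by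
  intro x y h
  refine Prod.ext (hπ ?_) (congrArg RegularWreathProduct.right h)
  exact congrFun (congrArg RegularWreathProduct.left h) 1

open Pool.Agent.Y63.KR in
include hC in
/-- the stabilisers -/
lemma stab_ib (b : C → G) (σ : Set (Subgroup G)) :
    chainStabilizer (Subgroup.map (ib b) '' σ) ⊓ Subgroup.normalizer (Qb b : Set _) =
      conjSub (bse G C b) (hc (C := C) (chainStabilizer σ) (chainStabilizer σ).subtype).range := by
  have hR : R1 p (bse G C).range := by
    refine R1.of_cyclic ?_
    have h1 : Nat.card (RegularWreathProduct G C ⧸ (bse G C).range) = p := bse_card.trans hC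
    exact isCyclic_of_prime_card h1
  ext s
  rw [mem_conjSub', Subgroup.mem_inf]
  set t := (bse G C b)⁻¹ * s * bse G C b with ht
  have hst : s = bse G C b * t * (bse G C b)⁻¹ := by
    rw [ht]; group
  have hN : s ∈ Subgroup.normalizer (Qb b : Set _) ↔ ∀ i, t.left i = t.left 1 := by
    rw [← cent_iff hC]
    constructor
    · intro h q hq
      have h1 := cent_of_norm hR (Qb_inf b) (conjSub_eq_iff.mpr h)
        (u := bse G C b * q * (bse G C b)⁻¹) ⟨q, hq, rfl⟩
      rw [ht]
      calc q * ((bse G C b)⁻¹ * s * (bse G C b)) =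
          (bse G C b)⁻¹ * ((bse G C b * q * (bse G C b)⁻¹) * s) * (bse G C b) := by group
        _ = (bse G C b)⁻¹ * (s * (bse G C b * q * (bse G C b)⁻¹)) * (bse G C b) := by rw [h1]
        _ = _ := by group
    · intro h
      rw [← conjSub_eq_iff]
      refine Pool.Agent.Q100.IV.conj_eq_self ?_
      rintro _ ⟨q, hq, rfl⟩
      have h1 := h q hq
      symm
      change bse G C b * q * (bse G C b)⁻¹ * s = s * (bse G C b * q * (bse G C b)⁻¹)
      rw [hst]
      calc bse G C b * q * (bse G C b)⁻¹ * (bse G C b * t * (bse G C b)⁻¹) =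
          bse G C b * (q * t) * (bse G C b)⁻¹ := by group
        _ = bse G C b * (t * q) * (bse G C b)⁻¹ := by rw [h1]
        _ = _ := by group
  have hP : (∀ i, t.left i = t.left 1) → (s ∈ chainStabilizer (Subgroup.map (ib b) '' σ) ↔
      t.left 1 ∈ chainStabilizer σ) := by
    intro hcst
    rw [mem_chainStabilizer, mem_chainStabilizer]
    have hmap : ∀ g : G, s * ib b g * s⁻¹ = ib b (t.left 1 * g * (t.left 1)⁻¹) := by
      intro g
      change s * (bse G C b * dg G C g * (bse G C b)⁻¹) * s⁻¹ =
        bse G C b * dg G C (t.left 1 * g * (t.left 1)⁻¹) * (bse G C b)⁻¹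
      have h1 : t * dg G C g * t⁻¹ = dg G C (t.left 1 * g * (t.left 1)⁻¹) := by
        apply RegularWreathProduct.ext
        · funext i
          simp [dg]
          rw [hcst i]
        · simp [dg]
      rw [← h1, hst]
      group
    constructor
    · intro h P hPσ
      have h1 := h _ ⟨P, hPσ, rfl⟩
      apply Subgroup.map_injective (ib_inj b)
      ext x
      have h2 : x ∈ conjSub s (P.map (ib b)) ↔ x ∈ P.map (ib b) := by rw [h1]
      rw [← h2]
      constructor
      · rintro ⟨_, ⟨g, hg, rfl⟩, rfl⟩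
        exact ⟨ib b g, ⟨g, hg, rfl⟩, hmap g⟩
      · rintro ⟨_, ⟨g, hg, rfl⟩, rfl⟩
        exact ⟨_, ⟨g, hg, rfl⟩, (hmap g).symm⟩
    · rintro h _ ⟨P, hPσ, rfl⟩
      have h1 := h P hPσ
      ext x
      constructor
      · rintro ⟨_, ⟨g, hg, rfl⟩, rfl⟩
        refine ⟨t.left 1 * g * (t.left 1)⁻¹, ?_, (hmap g).symm⟩
        have h3 : t.left 1 * g * (t.left 1)⁻¹ ∈ conjSub (t.left 1) P := ⟨g, hg, rfl⟩
        rw [h1] at h3
        exact h3
      · rintro ⟨g, hg, rfl⟩
        have h3 : g ∈ conjSub (t.left 1) P := by rw [h1]; exact hg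
        obtain ⟨g', hg', rfl⟩ := h3
        exact ⟨ib b g', ⟨g', hg', rfl⟩, hmap g'⟩
  constructor
  · rintro ⟨h1, h2⟩
    have h3 := hN.mp h2
    refine ⟨(⟨t.left 1, (hP h3).mp h1⟩, t.right), ?_⟩
    apply RegularWreathProduct.ext
    · funext i
      exact (h3 i).symm
    · rfl
  · rintro ⟨⟨g, c⟩, h⟩
    have h3 : ∀ i, t.left i = (g : G) := fun i => by rw [← h]; rfl
    have h4 : ∀ i, t.left i = t.left 1 := fun i => by rw [h3, h3]
    refine ⟨(hP h4).mpr ?_, hN.mpr h4⟩
    rw [h3]
    exact g.2

end compl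

section main

variable {F : Type} [Field F] (red : integralClosure ℤ ℂ →+* F)
variable {G C : Type} [Group G] [Finite G] [Group C] [Fintype C] {p : ℕ}
  [hp : Fact p.Prime] [CharP F p]

/-- the contribution of one complement -/
lemma cs_Qb (hC : Nat.card C = p) (B : (G → F) → F) (b : C → G) :
    CS p (CQ (bse G C).range (Qb b)) (fun S => (Nat.card (S ⊓ Subgroup.normalizer
        (Qb b : Set (RegularWreathProduct G C)) : Subgroup (RegularWreathProduct G C)) : ℚ[X]) *
        bwW red p B (S ⊓ Subgroup.normalizer (Qb b : Set (RegularWreathProduct G C)))) =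
      (p : ℚ[X]) ^ 2 * X * wsumS p (bwI red p B) := by
  rw [cs_hom (ib b) (ib_inj b) (range_ib hC b)]
  unfold wsumS
  rw [Finset.mul_sum]
  refine Finset.sum_congr rfl fun σ _ => ?_
  rw [stab_ib hC b σ.1, card_conj, bwW_conj]
  set H := chainStabilizer σ.1 with hH
  have h1 : Nat.card (hc (C := C) H H.subtype).range = Nat.card H * p := by
    rw [← Nat.card_congr (MonoidHom.ofInjective (hc_inj H.subtype_injective)).toEquiv,
      Nat.card_prod, hC]
  have h2 : bwW red p B (hc (C := C) H H.subtype).range = (p : ℚ[X]) * (X * bwI red p B H) := by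
    unfold bwI
    refine Eq.trans ?_ (apoly_diag red hC B H.subtype)
    symm
    refine apoly_Ov red (MonoidHom.ofInjective (hc_inj (C := C) H.subtype_injective)) p
      (fun t a b => ?_) fun t x => rfl
    exact (wE_inz (C := C) t.2).conj (a : RegularWreathProduct G C) b
  rw [h1, h2]
  push_cast
  ring

/-- **the chains of the wreath product** -/
theorem cs_top (hC : Nat.card C = p) {B : (G → F) → F} (hB : IsBlock B) :
    CS p ⊤ (fun H : Subgroup (RegularWreathProduct G C) =>
      (Nat.card H : ℚ[X]) * bwW red p B H) = wsumS p (bwI red p B) ^ p +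
      ((p : ℚ[X]) ^ 2 * X - 1) * (Nat.card G : ℚ[X]) ^ (p - 1) *
        expand ℚ p (wsumS p (bwI red p B)) -
      (Nat.card G : ℚ[X]) ^ (p - 1) * ((p : ℚ[X]) ^ 2 * X * wsumS p (bwI red p B)) := by
  have hR : R1 p (bse G C).range := by
    refine R1.of_cyclic ?_
    have h1 : Nat.card (RegularWreathProduct G C ⧸ (bse G C).range) = p := bse_card.trans hC
    exact isCyclic_of_prime_card h1
  have hCq : Fintype.card C = p := by rw [← Nat.card_eq_fintype_card, hC]
  rw [cs_rank1 hR, cs_base red hC hB, OQ_eq hC,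
    Finset.sum_image (fun b _ b' _ h => Qb_inj h)]
  have h1 : ∀ b : Bs G C, CS p (CQ (bse G C).range (Qb b.1)) (fun S =>
      (fun H : Subgroup (RegularWreathProduct G C) => (Nat.card H : ℚ[X]) * bwW red p B H)
        (S ⊓ Subgroup.normalizer (Qb b.1 : Set (RegularWreathProduct G C)))) =
      (p : ℚ[X]) ^ 2 * X * wsumS p (bwI red p B) := fun b => cs_Qb red hC B b.1
  rw [Finset.sum_congr rfl fun b _ => h1 b, Finset.sum_const, Finset.card_univ, card_Bs, hCq,
    nsmul_eq_mul]
  push_cast
  ring

/-- all chains -/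
def chT (p : ℕ) (Γ : Type) [Group Γ] : Ch p Γ ≃ ChX p (⊤ : Subgroup Γ) where
  toFun σ := ⟨σ.1, σ.2, fun _ _ => le_top⟩
  invFun σ := ⟨σ.1, σ.2.1⟩
  left_inv _ := rfl
  right_inv _ := rfl

theorem wsum_top {Γ : Type} [Group Γ] [Finite Γ] (Φ : Subgroup Γ → ℚ[X]) :
    wsumS p Φ = CS p ⊤ (fun H : Subgroup Γ => (Nat.card H : ℚ[X]) * Φ H) := by
  unfold wsumS CS
  exact Fintype.sum_equiv (chT p Γ) _ _ (fun σ => rfl)

end main

end Pool.Agent.H378.JW
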