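import Pool.Agent.H378.JW.Blk

/-!
# Existence, positivity and defects of the blocks of wreath products with a group of order `p`
-/

set_option autoImplicit false
set_option linter.unusedSectionVars false

open scoped BigOperators Classical

noncomputable section

namespace Pool.Agent.H378.JW

open Polynomial
open Pool.Agent.Y63.NV
open Pool.Agent.Y63.AWC (IsIrreducibleCharacter mult St Orb)
open Pool.Agent.Y63.KR (conjSub chainStabilizer alternatingSum IsPChain)
open Pool.Agent.Q90.WR (apoly apoly_sum anum apoly_congr apoly_coeff anum_card dfn dfn_eq coeff_sum_X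
  deg_pos fac_le Ch conjEquiv card_mul_alternatingSum' wsumS)
open Pool.Agent.Helper884.IC (Irr mem_Irr IsIrrChar)
open Pool.Agent.E8helper60.AW
open Pool.Agent.E8helper60.DD
open Pool.Agent.E8helper46.AW (exists_char)
open Pool.Agent.Y809.NV (cv_eq)
open Pool.Agent.Y564.NV (st_cases iv_iff Iv)

variable {F : Type} [Field F] {p : ℕ} (red : integralClosure ℤ ℂ →+* F)
variable {G C : Type} [Group G] [Finite G] [Group C] [Fintype C]

/-- the characters over a product -/
theorem tens_of {B : (G → F) → F} (hB : IsBlock B) {θ : (C → G) → ℂ}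
    (h1 : IsIrreducibleCharacter θ) (h2 : OverP B (centralValue red θ)) :
    ∃ ψ : C → G → ℂ, (∀ i, IsIrreducibleCharacter (ψ i) ∧
      ∀ f : G → F, IsClassFun f → centralValue red (ψ i) f = B f) ∧ θ = tens ψ := by
  have h3 : θ ∈ OvP red B (fun (x : C → G) i => MonoidHom.id G (x i)) :=
    ⟨h1, fun f => h2 f.1 f.2⟩
  rw [OvP_eq red hB (fun _ : C => MonoidHom.id G) (fun _ => Function.injective_id)] at h3
  obtain ⟨ψ, h4, rfl⟩ := h3
  exact ⟨ψ, fun i => ⟨(h4 i).1, fun f hf => (h4 i).2 ⟨f, hf⟩⟩, rfl⟩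

/-- the defects of the characters of `G ≀ C` over `B` -/
theorem dfn_wr [hp : Fact p.Prime] (hC : Nat.card C = p) {B : (G → F) → F} (hB : IsBlock B)
    {χ : RegularWreathProduct G C → ℂ} (h1 : IsIrreducibleCharacter χ)
    (h2 : ∀ f : G → F, IsClassFun f → centralValue red χ (wE G C f) = B f ^ Fintype.card C) :
    ∃ ψ : C → G → ℂ, (∀ i, IsIrreducibleCharacter (ψ i) ∧
      ∀ f : G → F, IsClassFun f → centralValue red (ψ i) f = B f) ∧
      ∑ i, dfn p (ψ i) ≤ dfn p χ ∧ dfn p χ ≤ ∑ i, dfn p (ψ i) + 1 := by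
  obtain ⟨θ, a1, a2, -, a4⟩ := base_char (p := p) red h1 h2
  obtain ⟨ψ, b1, rfl⟩ := tens_of red hB a1 a2
  have h3 := a4 hp.out hC
  rw [dfn_tens p fun i => (b1 i).1] at h3
  exact ⟨ψ, b1, h3⟩

/-- a block of the wreath product -/
theorem exists_overW_p [hp : Fact p.Prime] (hC : Nat.card C = p) {B : (G → F) → F}
    {χ : G → ℂ} (h : IsIrreducibleCharacter χ)
    (h2 : ∀ f : G → F, IsClassFun f → centralValue red χ f = B f) :
    ∃ χ' : RegularWreathProduct G C → ℂ, IsIrreducibleCharacter χ' ∧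
      IsBlock (centralValue red χ') ∧ OverW B (centralValue red χ') ∧
      dfn p χ' = p * dfn p χ + 1 := by
  have : Fintype G := Fintype.ofFinite G
  have hCq : Fintype.card C = p := by rw [← Nat.card_eq_fintype_card, hC]
  have hGr : Fintype (RegularWreathProduct G C) := Fintype.ofFinite _
  obtain ⟨h1, -, h3⟩ := exists_overP red (ι := C) h h2
  have hr : Nat.card (RegularWreathProduct G C ⧸ (bse G C).range) = p := bse_card.trans hC
  let e : (C → G) ≃* (bse G C).range := MonoidHom.ofInjective bse_inj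
  have he : ∀ x, ((e x : (bse G C).range) : RegularWreathProduct G C) = bse G C x := fun x => rfl
  obtain ⟨θ, hθ⟩ : ∃ θ : (bse G C).range → ℂ, (fun x => θ (e x)) = tens fun _ : C => χ :=
    ⟨fun y => (tens fun _ : C => χ) (e.symm y), funext fun x => by
      change (tens fun _ : C => χ) (e.symm (e x)) = _
      rw [e.symm_apply_apply]⟩
  have hθi : IsIrreducibleCharacter θ := (irr_comp e).1 (by rw [hθ]; exact h1)
  obtain ⟨χ', h4, h5⟩ := exists_over (bse G C).range hr (hθi : IsIrrChar θ)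
  refine ⟨χ', h4, Pool.Agent.Y930.NV.cvh F red _ _ h4, fun f hf => ?_, ?_⟩
  · rw [cv_eq (bse G C).range red h4 hθi h5 (wE_inz hf), ← h3 f hf, ← hθ]
    have hcl : IsClassFun fun x : (bse G C).range => wE G C f x := fun a b =>
      (wE_inz (C := C) hf).conj (a : RegularWreathProduct G C) b
    rw [← cv_comp red e hθi hcl]
    congr 1
    funext x
    rw [he, wE_bse]
  · have hiv : Nat.card (St (bse G C).range θ) = Nat.card (RegularWreathProduct G C) := by
      rw [← iv_iff]
      intro y a b hab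
      obtain ⟨x, rfl⟩ := e.surjective a
      obtain ⟨x', rfl⟩ := e.surjective b
      have h6 := congrFun hθ x
      have h7 := congrFun hθ x'
      refine h7.trans (Eq.trans ?_ h6.symm)
      rw [he, he, conj_bse] at hab
      unfold tens
      have hψ : ∀ g x, χ (g * x * g⁻¹) = χ x := Pool.Agent.Y930.NV.irr_Cf h
      have h8 : ∀ i : C, χ (x' i) = χ (x (y.right⁻¹ * i)) := fun i => by rw [hab i, hψ]
      refine (Finset.prod_congr rfl fun i _ => h8 i).trans ?_
      exact Fintype.prod_equiv (Equiv.mulLeft y.right⁻¹) _ _ fun i => rfl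
    rw [dfn_over_p (bse G C).range hr hθi h4 h5, if_pos hiv, ← dfn_comp e θ]
    change dfn p (fun x => θ (e x)) + 1 = _
    rw [hθ, dfn_tens p fun _ => h, Finset.sum_const, Finset.card_univ, smul_eq_mul, hCq]

/-- the defect of a block -/
def DefEq (p : ℕ) (red : integralClosure ℤ ℂ →+* F) {G : Type} [Group G] (B : (G → F) → F)
    (n : ℕ) : Prop := DefGe p red B n ∧ ∀ m, DefGe p red B m → m ≤ n

theorem defEq_iff {B : (G → F) → F} {n : ℕ} : DefEq p red B n ↔
    (∃ χ : G → ℂ, IsIrreducibleCharacter χ ∧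
      (∀ f : G → F, IsClassFun f → centralValue red χ f = B f) ∧ dfn p χ = n) ∧
    ∀ χ : G → ℂ, IsIrreducibleCharacter χ →
      (∀ f : G → F, IsClassFun f → centralValue red χ f = B f) → dfn p χ ≤ n := by
  unfold DefEq
  constructor
  · rintro ⟨h1, h2⟩
    have h3 : ∀ χ : G → ℂ, IsIrreducibleCharacter χ →
      (∀ f : G → F, IsClassFun f → centralValue red χ f = B f) → dfn p χ ≤ n := fun χ a b =>
      h2 _ ((defGe_iff red).2 ⟨χ, a, b, le_rfl⟩)
    obtain ⟨χ, a, b, c⟩ := (defGe_iff red).1 h1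
    exact ⟨⟨χ, a, b, le_antisymm (h3 χ a b) c⟩, h3⟩
  · rintro ⟨⟨χ, a, b, c⟩, h2⟩
    refine ⟨(defGe_iff red).2 ⟨χ, a, b, c.ge⟩, fun m hm => ?_⟩
    obtain ⟨χ', a', b', c'⟩ := (defGe_iff red).1 hm
    exact c'.trans (h2 χ' a' b')

/-- the defect of the block of the wreath product -/
theorem defEq_wr [IsAlgClosed F] [hp : Fact p.Prime] [CharP F p] (hC : Nat.card C = p)
    {B : (G → F) → F} (hB : IsBlock B)
    {n : ℕ} (h : DefEq p red B n) {B' : (RegularWreathProduct G C → F) → F} (hB' : IsBlock B')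
    (h' : OverW B B') : DefEq p red B' (p * n + 1) := by
  have hCq : Fintype.card C = p := by rw [← Nat.card_eq_fintype_card, hC]
  rw [defEq_iff] at h ⊢
  obtain ⟨⟨χ, a, b, c⟩, h2⟩ := h
  constructor
  · obtain ⟨χ', k1, k2, k3, k4⟩ := exists_overW_p (C := C) red hC a b
    refine ⟨χ', k1, fun f hf => ?_, by rw [k4, c]⟩
    exact overW_unique_p (p := p) red hC hB k2 hB' k3 h' f hf
  · intro χ' k1 k2
    obtain ⟨ψ, b1, -, b3⟩ := dfn_wr (p := p) red hC hB k1 (fun f hf => by
      rw [k2 _ (wE_inz hf).conj, h' f hf])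
    refine b3.trans (Nat.succ_le_succ ?_)
    refine (Finset.sum_le_card_nsmul Finset.univ (fun i => dfn p (ψ i)) n
      fun i _ => h2 _ (b1 i).1 (b1 i).2).trans ?_
    rw [Finset.card_univ, hCq, smul_eq_mul]

/-- positivity -/
theorem pos_wr_p [hp : Fact p.Prime] (hC : Nat.card C = p) {B : (G → F) → F} (hB : IsBlock B)
    (hpos : Pos p red B) {B' : (RegularWreathProduct G C → F) → F} (h' : OverW B B') :
    Pos p red B' := by
  rw [pos_iff] at hpos ⊢
  intro χ k1 k2
  obtain ⟨ψ, b1, b2, -⟩ := dfn_wr (p := p) red hC hB k1 (fun f hf => by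
    rw [k2 _ (wE_inz hf).conj, h' f hf])
  refine lt_of_lt_of_le ?_ b2
  refine lt_of_lt_of_le (hpos (ψ 1) (b1 1).1 (b1 1).2) ?_
  exact Finset.single_le_sum (f := fun i => dfn p (ψ i)) (fun i _ => Nat.zero_le _)
    (Finset.mem_univ 1)

/-- no nontrivial normal `p`-subgroups -/
theorem noP_wr_p [hp : Fact p.Prime] [Nontrivial G] (h : NoP p G) :
    NoP p (RegularWreathProduct G C) := by
  intro P hP hPp
  have hPn := hP
  rw [normal_iff_conj] at hP
  have h1 : ∀ i, pr i (pb P) = ⊥ := by
    intro i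
    refine h _ (normal_iff_conj.2 fun g => ?_)
      (isPGroup_pr (hPp.comap_of_injective _ bse_inj) i)
    have h2 := pr_pb_conj (bse G C fun _ => g) P i
    rw [hP] at h2
    simpa using h2.symm
  have h2 : pb P = ⊥ := by
    rw [eq_bot_iff]
    have h2 : pb P ≤ sp (fun _ : C => (⊥ : Subgroup G)) := le_sp_iff.2 fun i => (h1 i).le
    rwa [sp_bot] at h2
  rw [Subgroup.eq_bot_iff_forall]
  intro s hs
  -- `s` commutes with the base group
  have h3 : ∀ x : C → G, s * bse G C x * s⁻¹ = bse G C x := by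
    intro x
    have h4 : s * bse G C x * s⁻¹ * (bse G C x)⁻¹ ∈ P := by
      have h5 := hPn.conj_mem _ (P.inv_mem hs) (bse G C x)
      have h6 := P.mul_mem hs h5
      have e : s * (bse G C x * s⁻¹ * (bse G C x)⁻¹) = s * bse G C x * s⁻¹ * (bse G C x)⁻¹ := by
        group
      rwa [e] at h6
    have h5 : s * bse G C x * s⁻¹ * (bse G C x)⁻¹ =
        bse G C (s * bse G C x * s⁻¹ * (bse G C x)⁻¹).left := by
      apply RegularWreathProduct.ext
      · rfl
      · simp [bse]
    have h6 : (s * bse G C x * s⁻¹ * (bse G C x)⁻¹).left ∈ pb P := by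
      change bse G C _ ∈ P
      rw [← h5]
      exact h4
    rw [h2, Subgroup.mem_bot] at h6
    rw [h6, map_one] at h5
    exact mul_inv_eq_one.mp h5
  obtain ⟨g, hg⟩ := exists_ne (1 : G)
  have hr : s.right = 1 := by
    by_contra hr
    have h4 := congrArg (fun t => t.left s.right) (h3 (fun i => if i = 1 then g else 1))
    simp [bse, hr] at h4
    exact hg h4
  have h4 : s.left ∈ pb P := by
    change bse G C s.left ∈ P
    have e : bse G C s.left = s := RegularWreathProduct.ext rfl hr.symm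
    rw [e]
    exact hs
  rw [h2, Subgroup.mem_bot] at h4
  exact RegularWreathProduct.ext h4 hr

end Pool.Agent.H378.JW
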