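import Pool.Agent.H378.JW.Ex
import Pool.Agent.H378.JW.Ar

/-!
# Defects near the logarithm of the defect of the block decide
-/

set_option autoImplicit false
set_option linter.unusedSectionVars false

open scoped BigOperators Classical

noncomputable section

namespace Pool.Agent.H378.JW

open Polynomial
open Pool.Agent.Y63.NV
open Pool.Agent.Y63.AWC (IsIrreducibleCharacter mult St Orb)
open Pool.Agent.Y63.KR (conjSub chainStabilizer alternatingSum IsPChain)
open Pool.Agent.Q90.WR (apoly apoly_sum anum apoly_congr apoly_coeff anum_card dfn dfn_eq coeff_sum_X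
  deg_pos fac_le Ch conjEquiv card_mul_alternatingSum' wsumS)
open Pool.Agent.Helper884.IC (Irr mem_Irr IsIrrChar)
open Pool.Agent.E8helper60.AW
open Pool.Agent.E8helper60.DD
open Pool.Agent.E8helper46.AW (exists_char)
open Pool.Agent.Y809.NV (cv_eq)

variable {F : Type} [Field F] {p : ℕ} (red : integralClosure ℤ ℂ →+* F)

/-- the defects of the characters of `G ≀ C` over `B`, for `|C|` prime to `p` -/
theorem dfn_wr_q [hp : Fact p.Prime] {G C : Type} [Group G] [Finite G] [Group C] [Fintype C]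
    {q : ℕ} (hq : q.Prime) (hqp : q ≠ p) (hC : Nat.card C = q) {B : (G → F) → F} (hB : IsBlock B)
    {χ : RegularWreathProduct G C → ℂ} (h1 : IsIrreducibleCharacter χ)
    (h2 : ∀ f : G → F, IsClassFun f → centralValue red χ (wE G C f) = B f ^ Fintype.card C) :
    ∃ ψ : C → G → ℂ, (∀ i, IsIrreducibleCharacter (ψ i) ∧
      ∀ f : G → F, IsClassFun f → centralValue red (ψ i) f = B f) ∧
      dfn p χ = ∑ i, dfn p (ψ i) := by
  have : Fintype G := Fintype.ofFinite G
  have hqF : Fact q.Prime := ⟨hq⟩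
  have hGr : Fintype (RegularWreathProduct G C) := Fintype.ofFinite _
  have hr : Nat.card (RegularWreathProduct G C ⧸ (bse G C).range) = q := bse_card.trans hC
  let e : (C → G) ≃* (bse G C).range := MonoidHom.ofInjective bse_inj
  obtain ⟨θ', h3, h4⟩ := Pool.Agent.Y63.AWC.mult_exists (bse G C).range (h1 : IsIrrChar χ)
  have hirr : IsIrreducibleCharacter fun x => θ' (e x) := (irr_comp e).2 h3
  have hval : ∀ z : RegularWreathProduct G C → F, InZ (bse G C).range z →
      centralValue red χ z = centralValue red (fun x => θ' (e x)) (fun x => z (bse G C x)) := by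
    intro z hz
    rw [cv_eq (bse G C).range red h1 h3 h4 hz]
    have hcl : IsClassFun fun x : (bse G C).range => z x := fun a b =>
      hz.conj (a : RegularWreathProduct G C) b
    exact (cv_comp red e h3 hcl).symm
  have hov : OverP B (centralValue red fun x => θ' (e x)) := by
    intro f hf
    rw [← h2 f hf, hval _ (wE_inz hf)]
    congr 1
    funext x
    rw [wE_bse]
  obtain ⟨ψ, b1, b2⟩ := tens_of red hB hirr hov
  refine ⟨ψ, b1, ?_⟩
  rw [dfn_over (bse G C).range hqp hr h3 h1 h4, ← dfn_comp e θ', b2, dfn_tens p fun i => (b1 i).1]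

/-- the defect of the block of the wreath product -/
theorem defEq_wr_q [IsAlgClosed F] [hp : Fact p.Prime] [CharP F p] {G C : Type} [Group G]
    [Finite G] [Group C] [Fintype C] {q : ℕ} (hq : q.Prime) (hqp : q ≠ p)
    (hC : Nat.card C = q) {B : (G → F) → F} (hB : IsBlock B) (hpos : Pos p red B)
    {n : ℕ} (h : DefEq p red B n) {B' : (RegularWreathProduct G C → F) → F} (hB' : IsBlock B')
    (h' : OverW B B') : DefEq p red B' (q * n) := by
  have hCq : Fintype.card C = q := by rw [← Nat.card_eq_fintype_card, hC]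
  rw [defEq_iff] at h ⊢
  obtain ⟨⟨χ, a, b, c⟩, h2⟩ := h
  constructor
  · obtain ⟨χ', k1, k2, k3, k4⟩ := exists_overW (p := p) (C := C) red hq hqp hC a b
    refine ⟨χ', k1, fun f hf => ?_, by rw [k4, c]⟩
    exact overW_unique (p := p) red hq hqp hC hB hpos k2 hB' k3 h' f hf
  · intro χ' k1 k2
    obtain ⟨ψ, b1, b3⟩ := dfn_wr_q (p := p) red hq hqp hC hB k1 (fun f hf => by
      rw [k2 _ (wE_inz hf).conj, h' f hf])
    rw [b3]
    refine (Finset.sum_le_card_nsmul Finset.univ (fun i => dfn p (ψ i)) n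
      fun i _ => h2 _ (b1 i).1 (b1 i).2).trans ?_
    rw [Finset.card_univ, hCq, smul_eq_mul]

variable [IsAlgClosed F] [hp : Fact p.Prime] [CharP F p]

include hp in
/-- every block has a defect -/
theorem exists_defEq {G : Type} [Group G] [Finite G] {B : (G → F) → F} (hB : IsBlock B) :
    ∃ n, DefEq p red B n := by
  have : Fintype G := Fintype.ofFinite G
  obtain ⟨χ, h1, h2⟩ := exists_char (p := p) red hB
  have hfin : ∀ n, DefGe p red B n → n ≤ (Nat.card G).factorization p := by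
    intro n hn
    obtain ⟨_, _, _, k, _, h3⟩ := hn
    omega
  have hex : ∃ n, DefGe p red B n := ⟨_, (defGe_iff red).2 ⟨χ, h1, h2, le_rfl⟩⟩
  have hb : ∃ n, DefGe p red B n ∧ ∀ m, DefGe p red B m → m ≤ n := by
    obtain ⟨n₀, hn₀⟩ := hex
    have h3 := Nat.findGreatest_spec (P := DefGe p red B) (hfin n₀ hn₀) hn₀
    exact ⟨_, h3, fun m hm => Nat.le_findGreatest (hfin m hm) hm⟩
  exact hb

/-- the defect of the block of the direct power -/
theorem defEq_pow {G ι : Type} [Group G] [Finite G] [Fintype ι] {B : (G → F) → F}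
    (hB : IsBlock B) {n : ℕ} (h : DefEq p red B n) {B' : ((ι → G) → F) → F} (hB' : IsBlock B')
    (h' : OverP B B') : DefEq p red B' (Fintype.card ι * n) := by
  have : Fintype G := Fintype.ofFinite G
  rw [defEq_iff] at h ⊢
  obtain ⟨⟨χ, a, b, c⟩, h2⟩ := h
  constructor
  · obtain ⟨k1, k2, k3⟩ := exists_overP red (ι := ι) a b
    refine ⟨_, k1, fun f hf => ?_, ?_⟩
    · exact overP_unique (p := p) red hB k2 hB' k3 h' f hf
    · rw [dfn_tens p fun _ => a, Finset.sum_const, Finset.card_univ, smul_eq_mul, c]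
  · intro χ' k1 k2
    have h3 : χ' ∈ OvP red B (fun (x : ι → G) i => MonoidHom.id G (x i)) :=
      ⟨k1, fun f => (k2 _ (cls_tens f.2)).trans (h' f.1 f.2)⟩
    rw [OvP_eq red hB (fun _ : ι => MonoidHom.id G) (fun _ => Function.injective_id)] at h3
    obtain ⟨ψ, h4, rfl⟩ := h3
    rw [dfn_tens p fun i => (h4 i).1]
    refine (Finset.sum_le_card_nsmul Finset.univ (fun i => dfn p (ψ i)) n
      fun i _ => h2 _ (h4 i).1 fun f hf => (h4 i).2 ⟨f, hf⟩).trans ?_
    rw [Finset.card_univ, smul_eq_mul]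

/-- classes of pairs closed under wreath products with `C` -/
structure ClP (p : ℕ) (red : integralClosure ℤ ℂ →+* F) (C : Type) [Group C] [Fintype C]
    (X : (G : Type) → Group G → ((G → F) → F) → Prop) : Prop where
  fin : ∀ (G : Type) [i : Group G] (B : (G → F) → F), X G i B → Finite G
  blk : ∀ (G : Type) [i : Group G] (B : (G → F) → F), X G i B → IsBlock B
  pos : ∀ (G : Type) [i : Group G] (B : (G → F) → F), X G i B → Pos p red B
  wr : ∀ (G : Type) [i : Group G] (B : (G → F) → F), X G i B →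
    ∀ B' : (RegularWreathProduct G C → F) → F, IsBlock B' → OverW B B' →
      X (RegularWreathProduct G C) inferInstance B'

/-- the family of the generating functions -/
def FmX (p : ℕ) (red : integralClosure ℤ ℂ →+* F)
    (X : (G : Type) → Group G → ((G → F) → F) → Prop) (P : ℤ[X]) (n : ℕ) : Prop :=
  ∃ (G : Type) (i : Group G) (B : (G → F) → F), X G i B ∧ P = Pz p red B ∧ DefEq p red B n

variable {red}

theorem ClP.fam {C : Type} [Group C] [Fintype C] (hC : Nat.card C = p)
    {X : (G : Type) → Group G → ((G → F) → F) → Prop}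
    (h : ClP p red C X) : FamP p (FmX p red X) := by
  refine ⟨?_, ?_⟩
  · rintro _ n ⟨G, i, B, hX, rfl, hn⟩
    have hf := h.fin G B hX
    have hB := h.blk G B hX
    obtain ⟨χ, h1, h2⟩ := exists_char (p := p) red hB
    obtain ⟨χ', -, h3, h4, -⟩ := exists_overW_p (p := p) red (C := C) hC h1 h2
    exact ⟨Pz p red (centralValue red χ'), Pz_wr_p (p := p) red hC hB h3 h4,
      RegularWreathProduct G C, inferInstance, _, h.wr G B hX _ h3 h4, rfl,
      defEq_wr red hC hB hn h3 h4⟩
  · rintro _ _ ⟨G, i, B, hX, rfl, -⟩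
    have hf := h.fin G B hX
    rw [Pz_coeff]
    exact Sd_zero red (h.pos G B hX)

theorem ClP.famQ {C : Type} [Group C] [Fintype C] {q : ℕ} (hq : q.Prime) (hqp : q ≠ p)
    (hC : Nat.card C = q) {X : (G : Type) → Group G → ((G → F) → F) → Prop}
    (h : ClP p red C X) : ∀ P n, FmX p red X P n → ∃ P' n', n ≤ n' ∧ RecQ q P P' ∧
      FmX p red X P' n' := by
  rintro _ n ⟨G, i, B, hX, rfl, hn⟩
  have hf := h.fin G B hX
  have hB := h.blk G B hX
  have hpos := h.pos G B hX
  obtain ⟨χ, h1, h2⟩ := exists_char (p := p) red hB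
  obtain ⟨χ', -, h3, h4, -⟩ := exists_overW (p := p) red (C := C) hq hqp hC h1 h2
  exact ⟨Pz p red (centralValue red χ'), q * n, Nat.le_mul_of_pos_left _ hq.pos,
    Pz_wr (p := p) red hq hqp hC hB hpos h3 h4,
    RegularWreathProduct G C, inferInstance, _, h.wr G B hX _ h3 h4, rfl,
    defEq_wr_q red hq hqp hC hB hpos hn h3 h4⟩

/-- classes closed under squares -/
def ClS (X : (G : Type) → Group G → ((G → F) → F) → Prop) : Prop :=
  ∀ (G : Type) [i : Group G] (B : (G → F) → F), X G i B →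
    ∀ B' : ((Fin 2 → G) → F) → F, IsBlock B' → OverP B B' → X (Fin 2 → G) inferInstance B'

theorem ClP.famS {C : Type} [Group C] [Fintype C]
    {X : (G : Type) → Group G → ((G → F) → F) → Prop}
    (h : ClP p red C X) (hs : ClS X) : ∀ P n, FmX p red X P n → FmX p red X (P ^ 2) (2 * n) := by
  rintro _ n ⟨G, i, B, hX, rfl, hn⟩
  have hf := h.fin G B hX
  have hB := h.blk G B hX
  obtain ⟨χ, h1, h2⟩ := exists_char (p := p) red hB
  obtain ⟨-, h3, h4⟩ := exists_overP red (ι := Fin 2) h1 h2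
  refine ⟨Fin 2 → G, inferInstance, _, hs G B hX _ h3 h4, ?_, ?_⟩
  · have h5 := Pz_pow (p := p) red hB h3 h4
    rw [Fintype.card_fin] at h5
    exact h5.symm
  · have h6 := defEq_pow red hB hn h3 h4
    rwa [Fintype.card_fin] at h6

/-- all groups without nontrivial normal `p`-subgroups -/
theorem clP_all {C : Type} [Group C] [Fintype C] (hC : Nat.card C = p) : ClP p red C
      (fun G _ B => Finite G ∧ NoP p G ∧ IsBlock B ∧ Pos p red B) := by
  refine ⟨fun G i B h => h.1, fun G i B h => h.2.2.1, fun G i B h => h.2.2.2, ?_⟩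
  rintro G i B ⟨h1, h2, h3, h4⟩ B' h5 h6
  have hnt : Nontrivial G := by
    by_contra hne
    rw [not_nontrivial_iff_subsingleton] at hne
    obtain ⟨χ, k1, k2⟩ := exists_char (p := p) red h3
    obtain ⟨n, -, h7⟩ := h4 χ k1 k2
    rw [Nat.card_unique, Nat.factorization_one] at h7
    exact Nat.not_lt_zero _ h7
  exact ⟨inferInstance, noP_wr_p h2, h5, pos_wr_p red hC h3 h4 h6⟩

theorem clQ_all {C : Type} [Group C] [Fintype C] {q : ℕ} (hq : q.Prime) (hqp : q ≠ p)
    (hC : Nat.card C = q) : ClP p red C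
      (fun G _ B => Finite G ∧ NoP p G ∧ IsBlock B ∧ Pos p red B) := by
  have h := cls_all (p := p) (red := red) hq hqp hC
  exact ⟨h.fin, h.blk, h.pos, h.wr⟩

theorem clS_all : ClS (F := F)
      (fun G _ B => Finite G ∧ NoP p G ∧ IsBlock B ∧ Pos p red B) := by
  rintro G i B ⟨h1, h2, h3, h4⟩ B' h5 h6
  exact ⟨inferInstance, noP_pow h2, h5, pos_pow red h3 h4 h6⟩

/-- the conditions -/
def Cnd (p : ℕ) (red : integralClosure ℤ ℂ →+* F)
    (X : (G : Type) → Group G → ((G → F) → F) → Prop) (Q : ℕ → ℕ → ℤ → Prop) : Prop :=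
  ∀ (G : Type) [i : Group G] (B : (G → F) → F), X G i B → ∀ n, DefEq p red B n → ∀ d,
    Q n d (Sd p red B d)

theorem ClP.zero {C : Type} [Group C] [Fintype C]
    {X : (G : Type) → Group G → ((G → F) → F) → Prop} (h : ClP p red C X)
    (h1 : ∀ P n, FmX p red X P n → P = 0) :
    ∀ (G : Type) [i : Group G] (B : (G → F) → F), X G i B → ∀ d, Sd p red B d = 0 := by
  intro G i B hX d
  have hf := h.fin G B hX
  obtain ⟨n, hn⟩ := exists_defEq red (h.blk G B hX)
  rw [← Pz_coeff red B d, h1 _ n ⟨G, i, B, hX, rfl, hn⟩, coeff_zero]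

/-- **congruences for one defect** -/
theorem ClP.congr_one {C C' : Type} [Group C] [Fintype C] [Group C'] [Fintype C']
    (hC : Nat.card C = p) {q : ℕ} (hq : q.Prime) (hqp : q ≠ p) (hC' : Nat.card C' = q)
    {X : (G : Type) → Group G → ((G → F) → F) → Prop} (h : ClP p red C X) (hs : ClS X)
    (h' : ClP p red C' X) {φ : ℕ → ℕ} (hφ : Sel p φ) {m : ℕ} (hm : q ∣ m)
    (hc : Cnd p red X fun n d s => d = φ n → (m : ℤ) ∣ s) :
    ∀ (G : Type) [i : Group G] (B : (G → F) → F), X G i B → ∀ d, Sd p red B d = 0 := by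
  refine h.zero fun P n hP => (h.fam hC).congr_one hp.out (h.famS hs) hq hqp
    (h'.famQ hq hqp hC') hφ ?_ hP
  rintro _ n ⟨G, i, B, hX, rfl, hn⟩
  have hf := h.fin G B hX
  rw [Pz_coeff]
  exact (Int.natCast_dvd_natCast.2 hm).trans (hc G B hX n hn _ rfl)

/-- **bounds for one defect** -/
theorem ClP.bound_one {C : Type} [Group C] [Fintype C]
    (hC : Nat.card C = p) {X : (G : Type) → Group G → ((G → F) → F) → Prop} (h : ClP p red C X)
    (hs : ClS X) {φ : ℕ → ℕ} (hφ : Sel p φ)
    (hc : ∀ ε : ℝ, 0 < ε → ∃ c : ℝ, Cnd p red X fun n d s => d = φ n →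
      |(s : ℝ)| ≤ ε * (p : ℝ) ^ d + c) :
    ∀ (G : Type) [i : Group G] (B : (G → F) → F), X G i B → ∀ d, Sd p red B d = 0 := by
  refine h.zero fun P n hP => (h.fam hC).bound_one hp.out (h.famS hs) hφ ?_ hP
  intro ε hε
  obtain ⟨c, hc'⟩ := hc ε hε
  refine ⟨c, ?_⟩
  rintro _ n ⟨G, i, B, hX, rfl, hn⟩
  have hf := h.fin G B hX
  rw [Pz_coeff]
  exact hc' G B hX n hn _ rfl

/-- **one-sided bounds** -/
theorem ClP.bound {C : Type} [Group C] [Fintype C] (hC : Nat.card C = p)
    {X : (G : Type) → Group G → ((G → F) → F) → Prop} (h : ClP p red C X)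
    {ω : ℕ → ℝ} (hω : Filter.Tendsto ω Filter.atTop Filter.atTop) {s : ℤ} (hs : s = 1 ∨ s = -1)
    (hc : ∀ ε : ℝ, 0 < ε → ∃ c : ℝ, Cnd p red X fun n d a => |(d : ℝ) - Real.logb p n| ≤ ω n →
      ((s * a : ℤ) : ℝ) ≤ ε * (p : ℝ) ^ d + c) :
    ∀ (G : Type) [i : Group G] (B : (G → F) → F), X G i B → ∀ d, Sd p red B d = 0 := by
  refine h.zero fun P n hP => (h.fam hC).bound hp.out hω hs ?_ hP
  intro ε hε
  obtain ⟨c, hc'⟩ := hc ε hε
  refine ⟨c, ?_⟩
  rintro _ n ⟨G, i, B, hX, rfl, hn⟩ d hd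
  have hf := h.fin G B hX
  rw [Pz_coeff]
  exact hc' G B hX n hn d hd

end Pool.Agent.H378.JW
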