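import Pool.Agent.H378.JW.Cnt
import Pool.Graph.R_seed8.H977R3.CM.Aut
import Pool.Graph.R_pool_sql_team_seeded_64922ed1.X209.PJ.Off
import Pool.Graph.R_pool_sql_team_seeded_64922ed1.X209.PJ.Uniq

/-!
# The Frobenius twist of a block
-/

set_option autoImplicit false
set_option linter.unusedSectionVars false

open scoped BigOperators Classical

noncomputable section

namespace Pool.Agent.H378.JW

open Polynomial
open Pool.Agent.Y63.NV
open Pool.Agent.Y63.AWC (IsIrreducibleCharacter)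
open Pool.Agent.Q90.WR (apoly apoly_sum anum apoly_congr apoly_coeff anum_card dfn dfn_eq coeff_sum_X
  deg_pos fac_le)
open Pool.Agent.Helper884.IC
open Pool.Agent.X209.PJ (mem_adjoin_int char_mem irr_twist)
open Pool.Agent.E8helper60.DD

/-- power maps prime to `N` on the roots of unity are induced by field automorphisms -/
theorem exists_sigma {N k : ℕ} (hN : 0 < N) (hk : k.Coprime N) :
    ∃ σ : ℂ ≃+* ℂ, ∀ z : ℂ, z ^ N = 1 → σ z = z ^ k := by
  have : NeZero N := ⟨hN.ne'⟩
  have : NeZero (N : ℚ) := ⟨by exact_mod_cast hN.ne'⟩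
  have : IsCyclotomicExtension {N} ℚ (CyclotomicField N ℚ) :=
    CyclotomicField.isCyclotomicExtension N ℚ
  have hcy : Irreducible (Polynomial.cyclotomic N ℚ) := Polynomial.cyclotomic.irreducible_rat hN
  have hz := IsCyclotomicExtension.zeta_spec N ℚ (CyclotomicField N ℚ)
  have hμ := hz.pow_of_coprime k hk
  let g : (CyclotomicField N ℚ) ≃ₐ[ℚ] (CyclotomicField N ℚ) :=
    IsCyclotomicExtension.fromZetaAut hμ hcy
  have hg : g (IsCyclotomicExtension.zeta N ℚ (CyclotomicField N ℚ)) =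
      IsCyclotomicExtension.zeta N ℚ (CyclotomicField N ℚ) ^ k :=
    IsCyclotomicExtension.fromZetaAut_spec hμ hcy
  let j : CyclotomicField N ℚ →+* ℂ :=
    (IsAlgClosed.lift (M := ℂ) (R := ℚ) (S := CyclotomicField N ℚ) :
      CyclotomicField N ℚ →ₐ[ℚ] ℂ)
  obtain ⟨σ, hσ⟩ := Pool.Agent.H977R3.CM.exists_aut j
    (g : (CyclotomicField N ℚ) ≃+* (CyclotomicField N ℚ))
  refine ⟨σ, fun z hz1 => ?_⟩
  have hjz : IsPrimitiveRoot (j (IsCyclotomicExtension.zeta N ℚ (CyclotomicField N ℚ))) N :=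
    hz.map_of_injective j.injective
  obtain ⟨i, -, hi⟩ := hjz.eq_pow_of_pow_eq_one hz1
  rw [← hi, map_pow, hσ]
  have h1 : j ((g : (CyclotomicField N ℚ) ≃+* (CyclotomicField N ℚ))
      (IsCyclotomicExtension.zeta N ℚ (CyclotomicField N ℚ))) =
      j (IsCyclotomicExtension.zeta N ℚ (CyclotomicField N ℚ)) ^ k := by
    change j (g (IsCyclotomicExtension.zeta N ℚ (CyclotomicField N ℚ))) = _
    rw [hg, map_pow]
  rw [h1]
  ring

section red

variable {p : ℕ} [hp : Fact p.Prime] {F : Type} [Field F] [CharP F p]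
  (red : integralClosure ℤ ℂ →+* F)

lemma frob_inj {x y : F} {v : ℕ} (h : x ^ p ^ v = y ^ p ^ v) : x = y := by
  have h1 : (x - y) ^ p ^ v = 0 := by
    rw [sub_pow_char_pow, h, sub_self]
  exact sub_eq_zero.mp (pow_eq_zero_iff (pow_ne_zero _ hp.out.ne_zero) |>.mp h1)

/-- `σ` acts on the roots of unity of order dividing the part of `n` prime to `p` as the `p`-th power
map -/
def FrobN (p n : ℕ) (σ : ℂ ≃+* ℂ) : Prop :=
  ∀ ξ : ℂ, ξ ^ (n / p ^ n.factorization p) = 1 → σ ξ = ξ ^ p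

theorem exists_frob {n : ℕ} (hn : n ≠ 0) : ∃ σ : ℂ ≃+* ℂ, FrobN p n σ := by
  have h1 : 0 < n / p ^ n.factorization p := Nat.div_pos (Nat.ordProj_le p hn)
    (pow_pos hp.out.pos _)
  exact exists_sigma h1 ((Nat.coprime_ordCompl hp.out hn))

theorem red_frob {n : ℕ} {σ : ℂ ≃+* ℂ} (hσ : FrobN p n σ) (hn : n ≠ 0) {ζ : ℂ}
    (hζ : IsPrimitiveRoot ζ n) {a : ℂ} (ha : a ∈ Algebra.adjoin ℤ ({ζ} : Set ℂ)) :
    redC red (σ a) = redC red a ^ p := by
  have hint : IsIntegral ℤ ζ := hζ.isIntegral (Nat.pos_of_ne_zero hn)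
  have hint' : IsIntegral ℤ (σ ζ) := by
    have h1 : IsPrimitiveRoot (σ ζ) n := hζ.map_of_injective σ.injective
    exact h1.isIntegral (Nat.pos_of_ne_zero hn)
  let z : integralClosure ℤ ℂ := ⟨ζ, hint⟩
  let z' : integralClosure ℤ ℂ := ⟨σ ζ, hint'⟩
  have hz : red z' = red z ^ p := by
    have h1 : p ^ n.factorization p * (n / p ^ n.factorization p) = n :=
      Nat.ordProj_mul_ordCompl_eq_self n p
    have h3 : (ζ ^ p ^ n.factorization p) ^ (n / p ^ n.factorization p) = 1 := by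
      rw [← pow_mul, h1, hζ.pow_eq_one]
    have h4 := hσ _ h3
    have h5 : z' ^ p ^ n.factorization p = (z ^ p) ^ p ^ n.factorization p := by
      apply Subtype.ext
      change (σ ζ) ^ p ^ n.factorization p = (ζ ^ p) ^ p ^ n.factorization p
      rw [← map_pow, h4, ← pow_mul, ← pow_mul, mul_comm]
    have h6 := congrArg red h5
    rw [map_pow, map_pow, map_pow] at h6
    exact frob_inj h6
  rw [Algebra.adjoin_singleton_eq_range_aeval] at ha
  obtain ⟨P, rfl⟩ := ha
  have e1 : ∀ (w : integralClosure ℤ ℂ),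
      ((Polynomial.aeval w P : integralClosure ℤ ℂ) : ℂ) = Polynomial.aeval (w : ℂ) P := by
    intro w
    exact (Polynomial.aeval_algHom_apply (integralClosure ℤ ℂ).val w P).symm
  have e2 : ∀ (w : integralClosure ℤ ℂ),
      redC red (Polynomial.aeval (w : ℂ) P) = Polynomial.aeval (red w) P := by
    intro w
    rw [← e1, Pool.Agent.Y930.NV.redC_of red (Polynomial.aeval w P).2]
    exact (Polynomial.aeval_algHom_apply red.toIntAlgHom w P).symm
  have e3 : σ (Polynomial.aeval ζ P) = Polynomial.aeval ((z' : integralClosure ℤ ℂ) : ℂ) P := by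
    have h1 := (Polynomial.aeval_algHom_apply (σ : ℂ →+* ℂ).toIntAlgHom ζ P).symm
    exact h1
  change redC red (σ (Polynomial.aeval ζ P)) = redC red (Polynomial.aeval ζ P) ^ p
  rw [e3, e2, hz]
  have e4 := e2 z
  change redC red (Polynomial.aeval ζ P) = Polynomial.aeval (red z) P at e4
  rw [e4]
  have e5 := Polynomial.aeval_algHom_apply (frobenius F p).toIntAlgHom (red z) P
  change Polynomial.aeval (frobenius F p (red z)) P =
    frobenius F p (Polynomial.aeval (red z) P) at e5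
  rw [frobenius_def, frobenius_def] at e5
  exact e5

theorem cv_frob {J : Type} [Group J] [Finite J] {n : ℕ} (hn : n ≠ 0) (hJ : Nat.card J ∣ n)
    {σ : ℂ ≃+* ℂ} (hσ : FrobN p n σ)
    {χ : J → ℂ} (hχ : IsIrrChar χ) (f : J → F) :
    centralValue red (fun g => σ (χ g)) (fun x => f x ^ p) = centralValue red χ f ^ p := by
  have : Fintype J := Fintype.ofFinite J
  have : Fintype (ConjClasses J) := Fintype.ofFinite _
  have hζ := Complex.isPrimitiveRoot_exp n hn
  unfold centralValue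
  rw [finsum_eq_sum_of_fintype, finsum_eq_sum_of_fintype]
  have h0 : ∀ x : F, x ^ p = frobenius F p x := fun x => by
    rw [frobenius_def]
  rw [h0, map_sum]
  refine Finset.sum_congr rfl fun C _ => ?_
  rw [map_mul, ← h0, ← h0]
  congr 1
  have hχ' : Pool.Agent.Y63.AWC.IsIrreducibleCharacter χ := hχ
  have hint : IsIntegral ℤ ((Nat.card C.carrier : ℂ) * χ C.out / χ 1) := by
    rw [← Pool.Agent.Y930.NV.om_ind χ (Pool.Agent.Y930.NV.irr_Cf hχ') C,
      ← Pool.Agent.Y930.NV.ind_cast]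
    exact Pool.Agent.Y930.NV.om_int hχ' (Pool.Agent.Y930.NV.Cf_ind ℤ C)
  have hpw : ∀ g : J, g ^ n = 1 := fun g => by
    obtain ⟨m, rfl⟩ := hJ
    rw [pow_mul, pow_card_eq_one', one_pow]
  have hmem : (Nat.card C.carrier : ℂ) * χ C.out / χ 1 ∈
      IntermediateField.adjoin ℚ ({Complex.exp (2 * Real.pi * Complex.I / n)} : Set ℂ) :=
    div_mem (mul_mem (natCast_mem _ _) (char_mem hζ hn hpw hχ _))
      (char_mem hζ hn hpw hχ _)
  have h1 := red_frob red hσ hn hζ (mem_adjoin_int hn hζ hint hmem)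
  rw [← h1, map_div₀, map_mul, map_natCast]

/-- the characters in the Frobenius twist of a block -/
theorem apoly_frob {G H : Type} [Group G] [Group H] [Finite H] (B : (G → F) → F) (π : H → G) :
    apoly p (Ov red (fun (f : CF F G) (x : G) => f.1 x ^ p) (fun f => B f.1 ^ p) π) =
      apoly p (IndB red B π) := by
  have : Fintype H := Fintype.ofFinite H
  obtain ⟨σ, hσ⟩ := exists_frob (p := p) (n := Nat.card H) Nat.card_pos.ne'
  have hirr : ∀ (τ : ℂ ≃+* ℂ) {θ : H → ℂ}, IsIrreducibleCharacter θ →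
      IsIrreducibleCharacter fun g => τ (θ g) := fun τ θ h => irr_twist (τ : ℂ →+* ℂ) h
  have hdeg : ∀ (τ : ℂ ≃+* ℂ) {θ : H → ℂ}, IsIrreducibleCharacter θ →
      dfn p (fun g => τ (θ g)) = dfn p θ := by
    intro τ θ h
    obtain ⟨k, -, hk⟩ := deg_pos (h : IsIrrChar θ)
    have hk' : (fun g => τ (θ g)) 1 = (k : ℂ) := by
      change τ (θ 1) = _
      rw [hk, map_natCast]
    rw [dfn_eq p hk, dfn_eq (χ := fun g => τ (θ g)) p hk']
  have key : ∀ θ : H → ℂ, (fun g => σ (θ g)) ∈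
      Ov red (fun (f : CF F G) (x : G) => f.1 x ^ p) (fun f => B f.1 ^ p) π ↔
        θ ∈ IndB red B π := by
    intro θ
    constructor
    · rintro ⟨h1, h2⟩
      have h3 : IsIrreducibleCharacter θ := by
        have h4 := hirr σ.symm h1
        simpa using h4
      refine ⟨h3, fun f => ?_⟩
      have h4 := h2 f
      rw [cv_frob red Nat.card_pos.ne' dvd_rfl hσ h3 (fun x => f.1 (π x))] at h4
      exact frob_inj (v := 1) (by rw [pow_one]; exact h4)
    · rintro ⟨h1, h2⟩
      refine ⟨hirr σ h1, fun f => ?_⟩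
      rw [cv_frob red Nat.card_pos.ne' dvd_rfl hσ h1 (fun x => f.1 (π x)), h2 f]
  ext d
  rw [apoly_coeff, apoly_coeff, anum_card (fun θ h => h.1), anum_card (fun θ h => h.1)]
  congr 1
  symm
  refine Finset.card_bij (fun θ _ => fun g => σ (θ g)) ?_ ?_ ?_
  · intro θ hθ
    rw [Finset.mem_filter, mem_Irr] at hθ ⊢
    exact ⟨hirr σ hθ.1, (key θ).2 hθ.2.1, (hdeg σ hθ.1).trans hθ.2.2⟩
  · intro θ _ θ' _ h
    funext g
    exact σ.injective (congrFun h g)
  · intro θ hθ
    rw [Finset.mem_filter, mem_Irr] at hθ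
    have e : (fun g => σ ((fun g => σ.symm (θ g)) g)) = θ := by
      funext g
      exact σ.apply_symm_apply _
    have h1 := hirr σ.symm hθ.1
    refine ⟨fun g => σ.symm (θ g), ?_, e⟩
    rw [Finset.mem_filter, mem_Irr]
    refine ⟨h1, (key _).1 ?_, ?_⟩
    · rw [e]
      exact hθ.2.1
    · rw [← hθ.2.2]
      exact (hdeg σ.symm hθ.1)

end red

end Pool.Agent.H378.JW
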