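import Pool.Agent.H378.JW.Pos

/-!
# Functions of the stabilisers of the chains of `p`-subgroups of the base group
-/

set_option autoImplicit false
set_option linter.unusedSectionVars false

open scoped BigOperators Classical

noncomputable section

namespace Pool.Agent.H378.JW

open Pool.Agent.Y63.KR
open Pool.Agent.H378.AC (CS ChX cs_eq)
open Pool.Agent.Q90.WR (W_sum Ch exists_moebius)
open Pool.Agent.Q100.IV (alt SS mem_SS)
open Pool.Agent.E8helper60.AW (sp mem_sp card_sp bse bse_inj mem_bse bse_ker conj_bse)
open Pool.Agent.E8helper60.DD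

variable {G C : Type} [Group G] [Group C] [Finite G] [Fintype C] {p : ℕ}
variable {R : Type} [CommRing R] [Algebra ℚ R]

/-- **The chains of `p`-subgroups of the base group.** -/
theorem functional_base [hp : Fact p.Prime] (hC : (Nat.card C).Prime)
    (φ : Subgroup (RegularWreathProduct G C) → R) :
    CS p (bse G C).range φ =
      ∑ σ : C → Ch p G, (∏ c, (-1 : R) ^ (σ c).1.ncard) *
        φ (prd fun c => chainStabilizer (σ c).1) +
      ∑ σ : Ch p G, (-1 : R) ^ σ.1.ncard *
        ((((Nat.card (chainStabilizer σ.1) : ℚ) ^ (Nat.card C - 1))⁻¹) • ∑ b : Bs G C,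
          (φ (conjSub (bse G C b.1) (wrS (chainStabilizer σ.1))) -
            φ (prd fun c => conjSub (b.1 c) (chainStabilizer σ.1)))) := by
  have : Finite (RegularWreathProduct G C) := inferInstance
  have : Fintype (Subgroup (RegularWreathProduct G C)) := Fintype.ofFinite _
  obtain ⟨a, ha⟩ := exists_moebius φ
  have hCq : Fintype.card C = Nat.card C := by rw [← Nat.card_eq_fintype_card]
  have hCp : Fact (Nat.card C).Prime := ⟨hC⟩
  have h0 : ∀ K : Subgroup (RegularWreathProduct G C), ∀ (r : R),
      ((alt (· ≤ ·) (SS p (K : Set (RegularWreathProduct G C)) (bse G C).range ⊥) : ℤ) : R) * r =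
      ∑ σ : C → Ch p G, (∏ c, (-1 : R) ^ (σ c).1.ncard) *
        (if K ≤ prd (fun c => chainStabilizer (σ c).1) then r else 0) +
      ∑ σ : Ch p G, (-1 : R) ^ σ.1.ncard *
        ((((Nat.card (chainStabilizer σ.1) : ℚ) ^ (Nat.card C - 1))⁻¹) • ∑ b : Bs G C,
          ((if K ≤ conjSub (bse G C b.1) (wrS (chainStabilizer σ.1)) then r else 0) -
            (if K ≤ prd (fun c => conjSub (b.1 c) (chainStabilizer σ.1)) then r else 0))) := by
    intro K r
    by_cases hK : ∀ s ∈ K, s.right = 1
    · have e1 : ∀ (b : C → G) (H : Subgroup G), K ≤ conjSub (bse G C b) (wrS H) ↔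
          K ≤ prd (fun c => conjSub (b c) H) := by
        intro b H
        constructor
        · intro h s hs
          have h1 := mem_tw.1 (h hs)
          rw [mem_prd]
          refine ⟨hK s hs, fun c => ?_⟩
          have h2 := h1 c
          rw [hK s hs, inv_one, one_mul] at h2
          exact mem_conjSub'.2 h2
        · intro h s hs
          have h1 := (mem_prd.1 (h hs)).2
          rw [mem_tw]
          intro c
          rw [hK s hs, inv_one, one_mul]
          exact mem_conjSub'.1 (h1 c)
      have e2 : ∀ R : C → Subgroup G, K ≤ prd R ↔ pb K ≤ sp R := by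
        intro R
        constructor
        · intro h x hx
          exact mem_sp.2 (mem_prd.1 (h (hx : bse G C x ∈ K))).2
        · intro h s hs
          rw [mem_prd]
          refine ⟨hK s hs, fun c => ?_⟩
          have e : bse G C s.left = s := RegularWreathProduct.ext rfl (hK s hs).symm
          have h1 : s.left ∈ pb K := by
            change bse G C s.left ∈ K
            rw [e]
            exact hs
          exact mem_sp.1 (h h1) c
      simp only [e1, sub_self, Finset.sum_const_zero, smul_zero, mul_zero, add_zero]
      rw [alt_base K hK, ← prod_W (p := p) (R := R) (pb K), Finset.sum_mul]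
      refine Finset.sum_congr rfl fun σ _ => ?_
      simp only [e2]
      split_ifs
      · ring
      · ring
    · -- a transversal
      push Not at hK
      obtain ⟨s, hs, hs1⟩ := hK
      have hz : ∀ c : C, ∃ k ∈ K, (k : RegularWreathProduct G C).right = c := by
        intro c
        have h1 : c ∈ Subgroup.zpowers s.right := mem_zpowers_of_prime_card rfl hs1
        obtain ⟨n, hn⟩ := h1
        refine ⟨s ^ n, K.zpow_mem hs n, ?_⟩
        have h3 := map_zpow (RegularWreathProduct.rightHom (D := G) (Q := C)) s n
        exact h3.trans hn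
      choose k hk hkr using hz
      have e1 : ∀ R : C → Subgroup G, ¬ K ≤ prd R := by
        intro R h
        exact hs1 (mem_prd.1 (h hs)).1
      simp only [if_neg (e1 _), mul_zero, Finset.sum_const_zero, zero_add, sub_zero]
      rw [alt_out K k hk hkr, ← W_sum]
      refine Finset.sum_congr rfl fun σ _ => ?_
      congr 1
      have h2 : ∑ b : Bs G C,
          (if K ≤ conjSub (bse G C b.1) (wrS (chainStabilizer σ.1)) then r else 0) =
          (Nat.card {b : C → G // b 1 = 1 ∧ K ≤ conjSub (bse G C b) (wrS (chainStabilizer σ.1))} : R)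
            * r := by
        rw [← Finset.sum_filter, Finset.sum_const, nsmul_eq_mul]
        congr 2
        rw [← Fintype.card_coe, ← Nat.card_eq_fintype_card]
        refine Nat.card_congr
          ⟨fun b => ⟨b.1.1, b.1.2, (Finset.mem_filter.1 b.2).2⟩,
           fun b => ⟨⟨b.1, b.2.1⟩, Finset.mem_filter.2 ⟨Finset.mem_univ _, b.2.2⟩⟩,
           fun b => rfl, fun b => rfl⟩
      rw [h2, (card_tw (chainStabilizer σ.1) K k hk hkr).2, hCq]
      have hne : ((Nat.card (chainStabilizer σ.1) : ℚ) ^ (Nat.card C - 1)) ≠ 0 :=
        pow_ne_zero _ (by exact_mod_cast (Nat.card_pos (α := chainStabilizer σ.1)).ne')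
      by_cases h3 : pr 1 (pb K) ≤ chainStabilizer σ.1
      · rw [if_pos h3, if_pos h3]
        have h4 : ((Nat.card (chainStabilizer σ.1) ^ (Nat.card C - 1) : ℕ) : R) * r =
            ((Nat.card (chainStabilizer σ.1) : ℚ) ^ (Nat.card C - 1)) • r := by
          rw [Algebra.smul_def]
          congr 1
          rw [map_pow, map_natCast, Nat.cast_pow]
        rw [h4, smul_smul, inv_mul_cancel₀ hne, one_smul]
      · rw [if_neg h3, if_neg h3, Nat.cast_zero, zero_mul, smul_zero]
  rw [cs_eq (bse G C).range ha]
  simp only [ha, Finset.mul_sum]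
  simp only [h0, Finset.sum_add_distrib]
  congr 1
  · rw [Finset.sum_comm]
  · rw [Finset.sum_comm]
    refine Finset.sum_congr rfl fun σ _ => ?_
    rw [← Finset.mul_sum, ← Finset.smul_sum, Finset.sum_comm]
    congr 2
    refine Finset.sum_congr rfl fun b _ => ?_
    rw [Finset.sum_sub_distrib]

end Pool.Agent.H378.JW
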