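import Pool.Agent.H378.AC.Fun
import Pool.Graph.R_pool_sql_team_seeded_b677cdb8.E8helper60.DD.Fun

/-!
# Invariant `p`-subgroups of the base group of a wreath product with a group of order `p`
-/

set_option autoImplicit false
set_option linter.unusedSectionVars false

open scoped BigOperators Classical

noncomputable section

namespace Pool.Agent.H378.JW

open Pool.Agent.Y63.KR
open Pool.Agent.Q90.WR (inv mem_inv exists_weight cs weight_eq bot_mem)
open Pool.Agent.Q100.IV (alt SS mem_SS)
open Pool.Agent.E8helper60.AW (sp mem_sp card_sp bse bse_inj mem_bse bse_ker conj_bse)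
open Pool.Agent.E8helper60.DD

section general

variable {G : Type} [Group G] [Finite G] {p : ℕ}

/-- the `p`-subgroups of `X` normalised by `K` -/
def inX (p : ℕ) (K : Set G) (X : Subgroup G) : Finset (Subgroup G) := (inv p K).filter (· ≤ X)

lemma mem_inX {K : Set G} {X P : Subgroup G} :
    P ∈ inX p K X ↔ (IsPGroup p P ∧ ∀ x ∈ K, conjSub x P = P) ∧ P ≤ X := by
  unfold inX
  rw [Finset.mem_filter, mem_inv]

lemma bot_inX (K : Set G) (X : Subgroup G) : (⊥ : Subgroup G) ∈ inX p K X := by
  rw [mem_inX]
  exact ⟨mem_inv.mp (bot_mem K), bot_le⟩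

lemma alt_cs {α : Type} [PartialOrder α] (S : Finset α) : alt (· ≤ ·) S = cs S := by
  unfold alt cs Pool.Agent.Q100.IV.Ch
  refine Finset.sum_congr ?_ fun _ _ => rfl
  ext σ
  simp only [Finset.mem_filter]

/-- the alternating sum is the value of a coweighting -/
lemma alt_of_weight {K : Set G} {X : Subgroup G} {f : Subgroup G → ℤ}
    (hf : ∀ P ∈ inX p K X, ∑ Q ∈ (inX p K X).filter (P ≤ ·), f Q = 1) :
    alt (· ≤ ·) (SS p K X ⊥) = f ⊥ := by
  rw [alt_cs, weight_eq hf ⊥ (bot_inX K X)]
  congr 1
  ext P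
  rw [mem_SS, Finset.mem_filter, mem_inX]
  tauto

end general

section wreath

variable {G C : Type} [Group G] [Group C] [Finite G] [Fintype C] {p : ℕ}

lemma mem_range {s : RegularWreathProduct G C} : s ∈ (bse G C).range ↔ s.right = 1 := by
  constructor
  · rintro ⟨x, rfl⟩
    rfl
  · intro h
    exact ⟨s.left, RegularWreathProduct.ext rfl h.symm⟩

/-- subgroups of the base group -/
theorem alt_base [hp : Fact p.Prime]
    (K : Subgroup (RegularWreathProduct G C)) (hK : ∀ s ∈ K, s.right = 1) :
    alt (· ≤ ·) (SS p (K : Set (RegularWreathProduct G C)) (bse G C).range ⊥) =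
      ∏ c, W p (pr c (pb K) : Set G) := by
  rw [← W_pi]
  obtain ⟨f, hf0, hf⟩ := exists_weight p (pb K : Set (C → G))
  have hconj : ∀ (x : C → G) (P : Subgroup (RegularWreathProduct G C)),
      pb (conjSub (bse G C x) P) = conjSub x (pb P) := by
    intro x P
    ext y
    rw [mem_pb, mem_conjSub', mem_conjSub', mem_pb, map_mul, map_mul, map_inv]
  have hconj' : ∀ (x : C → G) (L : Subgroup (C → G)),
      conjSub (bse G C x) (L.map (bse G C)) = (conjSub x L).map (bse G C) := by
    intro x L
    ext s
    rw [mem_conjSub']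
    constructor
    · rintro ⟨y, hy, he⟩
      refine ⟨x * y * x⁻¹, mem_conjSub'.2 ?_, ?_⟩
      · have e : x⁻¹ * (x * y * x⁻¹) * x = y := by group
        rw [e]
        exact hy
      · rw [map_mul, map_mul, map_inv, he]
        group
    · rintro ⟨y, hy, rfl⟩
      exact ⟨x⁻¹ * y * x, mem_conjSub'.1 hy, by rw [map_mul, map_mul, map_inv]⟩
  rw [alt_of_weight (f := fun P => f (pb P))]
  · simp only [pb_bot, hf0]
  · intro P hP
    have hin : ∀ Q : Subgroup (RegularWreathProduct G C),
        Q ∈ inX p (K : Set (RegularWreathProduct G C)) (bse G C).range →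
          pb Q ∈ inv p (pb K : Set (C → G)) := by
      intro Q hQ
      rw [mem_inX] at hQ
      rw [mem_inv]
      refine ⟨hQ.1.1.comap_of_injective _ bse_inj, fun x hx => ?_⟩
      rw [← hconj, hQ.1.2 _ hx]
    have hr : ∀ Q : Subgroup (RegularWreathProduct G C),
        Q ∈ inX p (K : Set (RegularWreathProduct G C)) (bse G C).range →
          ∀ s ∈ Q, s.right = 1 := fun Q hQ s hs => mem_range.mp ((mem_inX.mp hQ).2 hs)
    rw [← hf _ (hin P hP)]
    refine Finset.sum_bij' (fun Q _ => pb Q) (fun L _ => L.map (bse G C)) ?_ ?_ ?_ ?_ ?_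
    · intro Q hQ
      rw [Finset.mem_filter] at hQ ⊢
      exact ⟨hin Q hQ.1, Subgroup.comap_mono hQ.2⟩
    · intro L hL
      rw [Finset.mem_filter, mem_inv] at hL
      rw [Finset.mem_filter, mem_inX]
      refine ⟨⟨⟨hL.1.1.map _, fun s hs => ?_⟩, Subgroup.map_le_range _ _⟩, ?_⟩
      · have e : s = bse G C s.left := RegularWreathProduct.ext rfl (hK s hs)
        rw [e, hconj', hL.1.2]
        change bse G C s.left ∈ K
        rw [← e]
        exact hs
      · rw [← map_pb (hr P hP)]
        exact Subgroup.map_mono hL.2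
    · intro Q hQ
      rw [Finset.mem_filter] at hQ
      exact map_pb (hr Q hQ.1)
    · intro L _
      exact pb_map L
    · intro Q _
      rfl

/-- subgroups outside the base group -/
theorem alt_out [hp : Fact p.Prime]
    (K : Subgroup (RegularWreathProduct G C)) (k : C → RegularWreathProduct G C)
    (hk : ∀ c, k c ∈ K) (hkr : ∀ c, (k c).right = c) :
    alt (· ≤ ·) (SS p (K : Set (RegularWreathProduct G C)) (bse G C).range ⊥) =
      W p (pr 1 (pb K) : Set G) := by
  set b : C → G := fun c => (k c).left c with hb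
  -- conjugation by elements of `K`
  have key : ∀ s ∈ K, ∀ c, (b c)⁻¹ * s.left c * b (s.right⁻¹ * c) ∈ pr 1 (pb K) := by
    intro s hs c
    refine ⟨((k c)⁻¹ * s * k (s.right⁻¹ * c)).left, ?_, ?_⟩
    · have h1 : (k c)⁻¹ * s * k (s.right⁻¹ * c) ∈ K :=
        K.mul_mem (K.mul_mem (K.inv_mem (hk c)) hs) (hk _)
      have e : bse G C ((k c)⁻¹ * s * k (s.right⁻¹ * c)).left =
          (k c)⁻¹ * s * k (s.right⁻¹ * c) := by
        apply RegularWreathProduct.ext
        · rfl
        · simp [hkr]
      change bse G C ((k c)⁻¹ * s * k (s.right⁻¹ * c)).left ∈ K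
      rw [e]
      exact h1
    · simp [hkr, hb, mul_assoc]
  obtain ⟨f, hf0, hf⟩ := exists_weight p (pr 1 (pb K) : Set G)
  rw [alt_of_weight (f := fun P => if P = prd (fun c => conjSub (b c) (pr 1 (pb P))) then
    f (pr 1 (pb P)) else 0)]
  · have e1 : prd (fun c : C => conjSub (b c) (pr 1 (pb (⊥ : Subgroup (RegularWreathProduct G C))))) =
        ⊥ := by
      have e2 : (fun c : C => conjSub (b c) (pr 1 (pb (⊥ : Subgroup (RegularWreathProduct G C))))) =
          fun _ => ⊥ := by
        funext c
        rw [pb_bot, pr_bot]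
        exact Subgroup.map_bot _
      rw [e2]
      unfold prd
      rw [sp_bot, Subgroup.map_bot]
    rw [e1, if_pos rfl, pb_bot, pr_bot, hf0]
  · intro P hP
    have hin : ∀ Q : Subgroup (RegularWreathProduct G C),
        Q ∈ inX p (K : Set (RegularWreathProduct G C)) (bse G C).range →
        pr 1 (pb Q) ∈ inv p (pr 1 (pb K) : Set G) ∧
          ∀ c, pr c (pb Q) = conjSub (b c) (pr 1 (pb Q)) := by
      intro Q hQ
      rw [mem_inX] at hQ
      rw [mem_inv]
      refine ⟨⟨isPGroup_pr (hQ.1.1.comap_of_injective _ bse_inj) 1, ?_⟩, fun c => ?_⟩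
      · rintro _ ⟨w, hw, rfl⟩
        change conjSub (w 1) (pr 1 (pb Q)) = pr 1 (pb Q)
        have h1 := pr_pb_conj (bse G C w) Q 1
        rw [hQ.1.2 _ hw] at h1
        simpa using h1.symm
      · have h1 := pr_pb_conj (k c) Q c
        rw [hQ.1.2 _ (hk c), hkr, inv_mul_cancel] at h1
        exact h1
    rw [← Finset.sum_filter, ← hf _ (hin P hP).1]
    refine Finset.sum_bij' (fun Q _ => pr 1 (pb Q)) (fun R _ => prd (fun c => conjSub (b c) R))
      ?_ ?_ ?_ ?_ ?_
    · intro Q hQ
      rw [Finset.mem_filter, Finset.mem_filter] at hQ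
      rw [Finset.mem_filter]
      exact ⟨(hin Q hQ.1.1).1, pr_mono 1 (Subgroup.comap_mono hQ.1.2)⟩
    · intro R hR
      rw [Finset.mem_filter, mem_inv] at hR
      obtain ⟨⟨a1, a2⟩, a3⟩ := hR
      have hb1 : b 1 ∈ pr 1 (pb K) := by
        have h1 := key (k 1) (hk 1) 1
        rw [hkr] at h1
        have h2 : (b 1)⁻¹ * (k 1).left 1 * b (1⁻¹ * 1) = b 1 := by
          simp only [hb, inv_one, one_mul]
          group
        rw [h2] at h1
        exact h1
      have e1 : pr 1 (pb (prd fun c => conjSub (b c) R)) = R := by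
        rw [pb_prd, pr_sp]
        exact a2 _ hb1
      rw [Finset.mem_filter, Finset.mem_filter, mem_inX, e1]
      refine ⟨⟨⟨⟨?_, ?_⟩, ?_⟩, ?_⟩, rfl⟩
      · exact (isPGroup_sp fun c => a1.map _).map _
      · intro s hs
        rw [conj_prd]
        congr 1
        funext c
        rw [← conjSub_mul]
        have h3 := a2 _ (key s hs c)
        have h4 : conjSub (s.left c * b (s.right⁻¹ * c)) R =
            conjSub (b c) (conjSub ((b c)⁻¹ * s.left c * b (s.right⁻¹ * c)) R) := by
          rw [← conjSub_mul]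
          congr 1
          group
        rw [h4, h3]
      · exact Subgroup.map_le_range _ _
      · have h5 : P = (pb P).map (bse G C) :=
          (map_pb fun s hs => mem_range.mp ((mem_inX.mp hP).2 hs)).symm
        rw [h5]
        refine Subgroup.map_mono (le_sp_iff.2 fun c => ?_)
        rw [(hin P hP).2 c]
        exact Subgroup.map_mono a3
    · intro Q hQ
      rw [Finset.mem_filter] at hQ
      exact hQ.2.symm
    · intro R hR
      rw [Finset.mem_filter, mem_inv] at hR
      have hb1 : b 1 ∈ pr 1 (pb K) := by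
        have h1 := key (k 1) (hk 1) 1
        rw [hkr] at h1
        have h2 : (b 1)⁻¹ * (k 1).left 1 * b (1⁻¹ * 1) = b 1 := by
          simp only [hb, inv_one, one_mul]
          group
        rw [h2] at h1
        exact h1
      rw [pb_prd, pr_sp]
      exact hR.1.2 _ hb1
    · intro Q _
      rfl

end wreath

end Pool.Agent.H378.JW
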